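import Pool.Agent.Lib.MP_3240be_co.LEAF.Asm
import Pool.Agent.Lib.MP_3240be_co.L27.LefU
import Pool.Agent.Lib.MP_3240be_co.N49.Ae2
import Pool.Agent.Lib.MP_3240be_co.CO.All
import Pool.Agent.Lib.MP_3240be_co.S86.Bas

/-!
# MP_3240be_co: every connected graph that is not bipartite is separated
-/

set_option autoImplicit false

namespace MP3240LEAF

/-- Corollary 1 of Theorem CORE. -/
theorem arb_all : MP3240CO.ArbStatement :=
  MP3240CO.arb_proof MP3240CO.coreNum_all fun _ _ H hr hc => MP3240K.exists_core H hr hc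

/-- Row R8. -/
theorem ae2_proof : Ae2Statement := by
  intro n p H V _ M _ hV _ s xs ys Bl J C ty io R A F hI hnot hPS
  exact MP3240N49.a_e2 hI hV hnot hPS

/-- Rows R2 and R3. -/
theorem lefg_proof : LefgStatement := by
  intro n p d H D hp hH hc _ hD
  obtain ⟨Y, hY, hYc⟩ := MP3240CO.exists_class hc
  have hYD : MP3240CO.Meets H D Y := by
    intro f hf
    by_contra hcon
    push Not at hcon
    exact hD.rig.ncol (MP3240CO.colorable_of_hom (G' := H.induce {x | x ∉ Y})
      (fun i => ⟨f i, hcon i⟩) (fun a b hab => hf.2 a b hab) hYc)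
  obtain ⟨Z, hZ, hZc, hZm⟩ := MP3240CO.exists_least H (fun Z => MP3240CO.Meets H D Z) ⟨Y, hY, hYD⟩
  rcases MP3240L27.leaf_lemma' hD hH hp hZ hZc hZm with ⟨X', s, xs, ys, h1, h2, h3, h4, h5⟩ | h
  · refine Or.inl ⟨s, xs, ys, X', h1, h2, fun Z' hZ' hZ'c => ?_, h4, h5⟩
    have := hZm Z' hZ' hZ'c
    omega
  · exact Or.inr h

/-- **Every connected graph that is not bipartite is separated from the larger connected
graphs.** -/
theorem sep_all : ∀ (n : ℕ) (H : SimpleGraph (Fin n)), H.Connected → ¬ H.Colorable 2 →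
    MP3240CO.Sep H :=
  sep_of MP3240CO.main_all arb_all MP3240SSL.ssl_all lefg_proof ae2_proof

end MP3240LEAF
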