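import Pool.Agent.Lib.MP_3240be_co.LEAF.Fo

/-!
# MP_3240be_co: leaf lemma, row R6 in the form (P) + (S) of finding 4854

`PS r G`: `G` has `PR` and for every path `y - x - w` a partition into `r` classes inducing
forests such that `x`, `y` are not in the component of `w` in its class.
-/

set_option autoImplicit false

namespace MP3240LEAF

open Finset

/-- Property (S). -/
def Sp {V : Type} (r : ℕ) (G : SimpleGraph V) : Prop :=
  ∀ y x w, G.Adj x y → G.Adj x w → y ≠ w → ∃ k : V → Fin r,
    Fo (fun a b => G.Adj a b ∧ k a = k b) ∧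
      ∃ D : Set V, w ∈ D ∧ x ∉ D ∧ y ∉ D ∧ ∀ a b, a ∈ D → G.Adj a b → k a = k b → b ∈ D

/-- Properties (P) and (S). -/
def PS {V : Type} (r : ℕ) (G : SimpleGraph V) : Prop := PR r G ∧ Sp r G

theorem Sp.mono {V : Type} {r s : ℕ} {G : SimpleGraph V} (h : Sp r G) (hrs : r ≤ s) : Sp s G := by
  intro y x w h1 h2 h3
  obtain ⟨k, hk, D, d1, d2, d3, d4⟩ := h y x w h1 h2 h3
  refine ⟨fun x => Fin.castLE hrs (k x), ?_, D, d1, d2, d3, ?_⟩
  · refine hk.mono ?_
    rintro x y ⟨h1, h2⟩
    exact ⟨h1, Fin.castLE_injective hrs h2⟩
  · intro a b ha hab he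
    exact d4 a b ha hab (Fin.castLE_injective hrs he)

theorem PS.mono {V : Type} {r s : ℕ} {G : SimpleGraph V} (h : PS r G) (hrs : r ≤ s) : PS s G :=
  ⟨h.1.mono hrs, h.2.mono hrs⟩

/-- Colourable graphs. -/
theorem PS.col {V : Type} {r : ℕ} {G : SimpleGraph V} (h : G.Colorable r) : PS r G := by
  refine ⟨PR.col h, ?_⟩
  obtain ⟨φ⟩ := h
  intro y x w h1 h2 h3
  refine ⟨φ, Fo.nil (fun x y hh => φ.valid hh.1 hh.2), {w}, rfl, h2.ne, h3, ?_⟩
  rintro a b rfl hab he
  exact absurd he (φ.valid hab)

/-- If `w` has a class different from those of `x`, `y`. -/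
theorem Sp.of_class {V : Type} {r : ℕ} {G : SimpleGraph V} {y x w : V} (k : V → Fin r)
    (hk : Fo (fun a b => G.Adj a b ∧ k a = k b)) (hx : k x ≠ k w) (hy : k y ≠ k w) :
    ∃ k : V → Fin r, Fo (fun a b => G.Adj a b ∧ k a = k b) ∧
      ∃ D : Set V, w ∈ D ∧ x ∉ D ∧ y ∉ D ∧ ∀ a b, a ∈ D → G.Adj a b → k a = k b → b ∈ D :=
  ⟨k, hk, {a | k a = k w}, rfl, hx, hy, fun a b (ha : k a = k w) _ he =>
    (he.symm.trans ha : k b = k w)⟩

/-- The partition `C - c | c + I`. -/
theorem part_c {V : Type} {G : SimpleGraph V} {C : Finset V} (c : V) (u v : V)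
    (hC : ∀ x y, G.Adj x y → x ∈ C ∨ y ∈ C) (hcov : ∀ x ∈ C, x ≠ c → x = u ∨ x = v) :
    ∃ k : V → Fin 2, (∀ x, k x = 0 ↔ (x ∈ C ∧ x ≠ c)) ∧ (∀ x, k x = 1 ↔ (x ∈ C → x = c)) ∧
      Fo (fun a b => G.Adj a b ∧ k a = k b) := by
  classical
  have h0 : ∀ x, (if x ∈ C ∧ x ≠ c then (0 : Fin 2) else 1) = 0 ↔ (x ∈ C ∧ x ≠ c) := by
    intro x
    by_cases h : x ∈ C ∧ x ≠ c
    · rw [if_pos h]
      exact ⟨fun _ => h, fun _ => rfl⟩
    · rw [if_neg h]
      exact ⟨fun h' => absurd h' (by decide), fun h' => absurd h' h⟩
  have h1 : ∀ x, (if x ∈ C ∧ x ≠ c then (0 : Fin 2) else 1) = 1 ↔ (x ∈ C → x = c) := by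
    intro x
    by_cases h : x ∈ C ∧ x ≠ c
    · rw [if_pos h]
      exact ⟨fun h' => absurd h' (by decide), fun h' => absurd (h' h.1) h.2⟩
    · rw [if_neg h]
      refine ⟨fun _ hx => ?_, fun _ => rfl⟩
      by_contra hne
      exact h ⟨hx, hne⟩
  refine ⟨fun x => if x ∈ C ∧ x ≠ c then 0 else 1, h0, h1, ?_⟩
  apply Fo.two
  · apply Fo.star u (fun x hx => G.loopless.irrefl x hx.1)
    rintro x y ⟨hxy, h2, h3⟩
    have hx := (h0 x).1 h2
    have hy := (h0 y).1 h3
    rcases hcov x hx.1 hx.2 with h | h
    · exact Or.inl h
    · rcases hcov y hy.1 hy.2 with h' | h'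
      · exact Or.inr h'
      · exact absurd (h.trans h'.symm) hxy.ne
  · apply Fo.star c (fun x hx => G.loopless.irrefl x hx.1)
    rintro x y ⟨hxy, h2, h3⟩
    rcases hC x y hxy with h | h
    · exact Or.inl ((h1 x).1 h2 h)
    · exact Or.inr ((h1 y).1 h3 h)

/-- Enumeration. -/
theorem enum2 {V : Type} {C : Finset V} (h3 : C.card ≤ 3) {u : V} (hu : u ∈ C) :
    ∃ a b, a ∈ C ∧ b ∈ C ∧ ∀ x ∈ C, x = u ∨ x = a ∨ x = b := by
  classical
  have h1 : (C.erase u).card ≤ 2 := by
    rw [Finset.card_erase_of_mem hu]
    omega
  obtain ⟨a, b, hab⟩ := le_two_cases u h1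
  have hin : ∀ x ∈ C, x = u ∨ x = a ∨ x = b := by
    intro x hx
    by_cases hxu : x = u
    · exact Or.inl hxu
    · exact Or.inr (hab x (Finset.mem_erase.2 ⟨hxu, hx⟩))
  by_cases ha : a ∈ C
  · by_cases hb : b ∈ C
    · exact ⟨a, b, ha, hb, hin⟩
    · refine ⟨a, u, ha, hu, fun x hx => ?_⟩
      rcases hin x hx with h | h | h
      · exact Or.inl h
      · exact Or.inr (Or.inl h)
      · exact absurd (h ▸ hx) hb
  · by_cases hb : b ∈ C
    · refine ⟨b, u, hb, hu, fun x hx => ?_⟩
      rcases hin x hx with h | h | h
      · exact Or.inl h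
      · exact absurd (h ▸ hx) ha
      · exact Or.inr (Or.inl h)
    · refine ⟨u, u, hu, hu, fun x hx => ?_⟩
      rcases hin x hx with h | h | h
      · exact Or.inl h
      · exact absurd (h ▸ hx) ha
      · exact absurd (h ▸ hx) hb

/-- The third vertex. -/
theorem enum1 {V : Type} {C : Finset V} (h3 : C.card ≤ 3) {u v : V} (hu : u ∈ C) (hv : v ∈ C)
    (huv : u ≠ v) : ∃ c, ∀ x ∈ C, x = u ∨ x = v ∨ x = c := by
  obtain ⟨a, b, _, _, h⟩ := enum2 h3 hu
  rcases h v hv with h1 | h1 | h1
  · exact absurd h1 huv.symm
  · subst h1
    exact ⟨b, h⟩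
  · subst h1
    refine ⟨a, fun x hx => ?_⟩
    rcases h x hx with h2 | h2 | h2 <;> simp [h2]

/-- (P) with a cover of at most three vertices. -/
theorem cov3_P {V : Type} {G : SimpleGraph V} {C : Finset V} (h3 : C.card ≤ 3)
    (hC : ∀ x y, G.Adj x y → x ∈ C ∨ y ∈ C) : PR 2 G := by
  classical
  apply PR.of_edges (by norm_num)
  apply edge_wlog hC
  intro u v huv hu e
  have neq01 : ∀ {i j : Fin 2}, i = 0 → j = 1 → (i = j ↔ false = true) := by
    intro i j h1 h2
    subst h1
    subst h2
    decide
  have neq10 : ∀ {i j : Fin 2}, i = 1 → j = 0 → (i = j ↔ false = true) := by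
    intro i j h1 h2
    subst h1
    subst h2
    decide
  by_cases hv : v ∈ C
  · obtain ⟨c, hc⟩ := enum1 h3 hu hv huv.ne
    cases e with
    | true =>
      by_cases hcu : c = u ∨ c = v
      · -- `C = {u, v}`: a vertex outside
        have hcov : ∀ x ∈ C, x = u ∨ x = v := by
          intro x hx
          rcases hc x hx with h | h | h
          · exact Or.inl h
          · exact Or.inr h
          · rcases hcu with h' | h'
            · exact Or.inl (h.trans h')
            · exact Or.inr (h.trans h')
        -- `C | I`
        refine ⟨fun x => if x ∈ C then 0 else 1, ?_, by simp [hu, hv]⟩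
        apply Fo.two
        · apply Fo.star u (fun x hx => G.loopless.irrefl x hx.1)
          rintro x y ⟨hxy, h2, h3⟩
          have hx : x ∈ C := by
            by_contra h
            simp [h] at h2
          have hy : y ∈ C := by
            by_contra h
            simp [h] at h3
          rcases hcov x hx with h | h
          · exact Or.inl h
          · rcases hcov y hy with h' | h'
            · exact Or.inr h'
            · exact absurd (h.trans h'.symm) hxy.ne
        · apply Fo.nil
          rintro x y ⟨hxy, h2, h3⟩
          rcases hC x y hxy with h | h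
          · simp [h] at h2
          · simp [h] at h3
      · push Not at hcu
        obtain ⟨k, k0, k1, hF⟩ := part_c c u v hC (fun x hx hxc => by
          rcases hc x hx with h | h | h
          · exact Or.inl h
          · exact Or.inr h
          · exact absurd h hxc)
        refine ⟨k, hF, ?_⟩
        rw [(k0 u).2 ⟨hu, hcu.1.symm⟩, (k0 v).2 ⟨hv, hcu.2.symm⟩]
        simp
    | false =>
      obtain ⟨k, k0, k1, hF⟩ := part_c u v c hC (fun x hx hxu => by
        rcases hc x hx with h | h | h
        · exact absurd h hxu
        · exact Or.inl h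
        · exact Or.inr h)
      exact ⟨k, hF, neq10 ((k1 u).2 fun _ => rfl) ((k0 v).2 ⟨hv, huv.ne'⟩)⟩
  · obtain ⟨a, b, ha, hb, hall⟩ := enum2 h3 hu
    cases e with
    | true =>
      obtain ⟨k, k0, k1, hF⟩ := part_c u a b hC (fun x hx hxu => by
        rcases hall x hx with h | h | h
        · exact absurd h hxu
        · exact Or.inl h
        · exact Or.inr h)
      refine ⟨k, hF, ?_⟩
      rw [(k1 u).2 fun _ => rfl, (k1 v).2 fun h => absurd h hv]
      simp
    | false =>
      -- another vertex of the cover, or none
      obtain ⟨c, hcu, z, hcov⟩ : ∃ c, c ≠ u ∧ ∃ z, ∀ x ∈ C, x ≠ c → x = u ∨ x = z := by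
        by_cases hau : a = u
        · by_cases hbu : b = u
          · exact ⟨v, huv.ne', u, fun x hx _ => by
              rcases hall x hx with h | h | h
              · exact Or.inl h
              · exact Or.inl (h.trans hau)
              · exact Or.inl (h.trans hbu)⟩
          · exact ⟨b, hbu, a, fun x hx hxc => by
              rcases hall x hx with h | h | h
              · exact Or.inl h
              · exact Or.inr h
              · exact absurd h hxc⟩
        · exact ⟨a, hau, b, fun x hx hxc => by
            rcases hall x hx with h | h | h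
            · exact Or.inl h
            · exact absurd h hxc
            · exact Or.inr h⟩
      obtain ⟨k, k0, k1, hF⟩ := part_c c u z hC hcov
      exact ⟨k, hF, neq01 ((k0 u).2 ⟨hu, hcu.symm⟩) ((k1 v).2 fun h => absurd h hv)⟩

/-- (S) with a cover of at most three vertices, `w` and `y` not both outside the cover. -/
theorem cov3_S {V : Type} {G : SimpleGraph V} {C : Finset V} (h3 : C.card ≤ 3)
    (hC : ∀ x y, G.Adj x y → x ∈ C ∨ y ∈ C) {y x w : V} (hxy : G.Adj x y) (hxw : G.Adj x w)
    (hyw : y ≠ w) (hor : y ∈ C ∨ w ∈ C) :
    ∃ k : V → Fin 2, Fo (fun a b => G.Adj a b ∧ k a = k b) ∧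
      ∃ D : Set V, w ∈ D ∧ x ∉ D ∧ y ∉ D ∧ ∀ a b, a ∈ D → G.Adj a b → k a = k b → b ∈ D := by
  classical
  have n01 : (0 : Fin 2) ≠ 1 := by decide
  by_cases hx : x ∈ C
  · by_cases hw : w ∈ C
    · by_cases hy : y ∈ C
      · -- all three in `C`: `c = w`
        obtain ⟨c, hc⟩ := enum1 h3 hx hy hxy.ne
        obtain ⟨c', hc'⟩ := enum1 h3 hw hx hxw.ne'
        have hyc : y = c' := by
          rcases hc' y hy with h | h | h
          · exact absurd h hyw
          · exact absurd h hxy.ne'
          · exact h
        obtain ⟨k, k0, k1, hF⟩ := part_c w x c' hC (fun z hz hzw => by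
          rcases hc' z hz with h | h | h
          · exact absurd h hzw
          · exact Or.inl h
          · exact Or.inr h)
        apply Sp.of_class k hF
        · rw [(k0 x).2 ⟨hx, hxw.ne⟩, (k1 w).2 fun _ => rfl]
          exact n01
        · rw [(k0 y).2 ⟨hy, hyw⟩, (k1 w).2 fun _ => rfl]
          exact n01
      · -- `c = x`
        obtain ⟨c', hc'⟩ := enum1 h3 hx hw hxw.ne
        obtain ⟨k, k0, k1, hF⟩ := part_c x w c' hC (fun z hz hzw => by
          rcases hc' z hz with h | h | h
          · exact absurd h hzw
          · exact Or.inl h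
          · exact Or.inr h)
        apply Sp.of_class k hF
        · rw [(k1 x).2 fun _ => rfl, (k0 w).2 ⟨hw, hxw.ne'⟩]
          exact n01.symm
        · rw [(k1 y).2 fun h => absurd h hy, (k0 w).2 ⟨hw, hxw.ne'⟩]
          exact n01.symm
    · have hy : y ∈ C := hor.resolve_right hw
      obtain ⟨c, hc⟩ := enum1 h3 hx hy hxy.ne
      -- `c` or a vertex outside the cover
      by_cases hcu : c = x ∨ c = y
      · obtain ⟨k, k0, k1, hF⟩ := part_c w x y hC (fun z hz _ => by
          rcases hc z hz with h | h | h
          · exact Or.inl h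
          · exact Or.inr h
          · rcases hcu with h' | h'
            · exact Or.inl (h.trans h')
            · exact Or.inr (h.trans h'))
        apply Sp.of_class k hF
        · rw [(k0 x).2 ⟨hx, hxw.ne⟩, (k1 w).2 fun _ => rfl]
          exact n01
        · rw [(k0 y).2 ⟨hy, hyw⟩, (k1 w).2 fun _ => rfl]
          exact n01
      · push Not at hcu
        obtain ⟨k, k0, k1, hF⟩ := part_c c x y hC (fun z hz hzc => by
          rcases hc z hz with h | h | h
          · exact Or.inl h
          · exact Or.inr h
          · exact absurd h hzc)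
        apply Sp.of_class k hF
        · rw [(k0 x).2 ⟨hx, hcu.1.symm⟩, (k1 w).2 fun h => absurd h hw]
          exact n01
        · rw [(k0 y).2 ⟨hy, hcu.2.symm⟩, (k1 w).2 fun h => absurd h hw]
          exact n01
  · -- `x` outside the cover: `c = y`
    have hy : y ∈ C := (hC x y hxy).resolve_left hx
    have hw : w ∈ C := (hC x w hxw).resolve_left hx
    obtain ⟨c', hc'⟩ := enum1 h3 hy hw hyw
    obtain ⟨k, k0, k1, hF⟩ := part_c y w c' hC (fun z hz hzw => by
      rcases hc' z hz with h | h | h
      · exact absurd h hzw
      · exact Or.inl h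
      · exact Or.inr h)
    apply Sp.of_class k hF
    · rw [(k1 x).2 fun h => absurd h hx, (k0 w).2 ⟨hw, hyw.symm⟩]
      exact n01.symm
    · rw [(k1 y).2 fun _ => rfl, (k0 w).2 ⟨hw, hyw.symm⟩]
      exact n01.symm

/-- `C | I` if `C` is a star. -/
theorem part_CI {V : Type} {G : SimpleGraph V} {C : Finset V}
    (hC : ∀ x y, G.Adj x y → x ∈ C ∨ y ∈ C) (c : V)
    (hst : ∀ x ∈ C, ∀ y ∈ C, G.Adj x y → x = c ∨ y = c) {y x w : V} (hx : x ∈ C) (_ : y ∉ C)
    (hw : w ∉ C) (hyw : y ≠ w) :
    ∃ k : V → Fin 2, Fo (fun a b => G.Adj a b ∧ k a = k b) ∧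
      ∃ D : Set V, w ∈ D ∧ x ∉ D ∧ y ∉ D ∧ ∀ a b, a ∈ D → G.Adj a b → k a = k b → b ∈ D := by
  classical
  refine ⟨fun x => if x ∈ C then 0 else 1, ?_, {w}, rfl, ?_, hyw, ?_⟩
  · apply Fo.two
    · apply Fo.star c (fun x hx => G.loopless.irrefl x hx.1)
      rintro x y ⟨hxy, h2, h3⟩
      have hx : x ∈ C := by
        by_contra h
        simp [h] at h2
      have hy : y ∈ C := by
        by_contra h
        simp [h] at h3
      exact hst x hx y hy hxy
    · apply Fo.nil
      rintro x y ⟨hxy, h2, h3⟩
      rcases hC x y hxy with h | h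
      · simp [h] at h2
      · simp [h] at h3
  · rintro rfl
    exact hw hx
  · rintro a b rfl hab he
    rcases hC _ _ hab with h | h
    · exact absurd h hw
    · simp [hw, h] at he

/-- Row R6: (P) and (S) with a cover of at most three vertices. -/
theorem cov3 {V : Type} {G : SimpleGraph V} {r : ℕ} (hr : 2 ≤ r) (hG : G.Colorable (r + 1))
    (C : Finset V) (h3 : C.card ≤ 3) (hC : ∀ x y, G.Adj x y → x ∈ C ∨ y ∈ C) : PS r G := by
  classical
  refine ⟨(cov3_P h3 hC).mono hr, ?_⟩
  intro y x w hxy hxw hyw
  have up : (∃ k : V → Fin 2, Fo (fun a b => G.Adj a b ∧ k a = k b) ∧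
      ∃ D : Set V, w ∈ D ∧ x ∉ D ∧ y ∉ D ∧ ∀ a b, a ∈ D → G.Adj a b → k a = k b → b ∈ D) →
      ∃ k : V → Fin r, Fo (fun a b => G.Adj a b ∧ k a = k b) ∧
        ∃ D : Set V, w ∈ D ∧ x ∉ D ∧ y ∉ D ∧ ∀ a b, a ∈ D → G.Adj a b → k a = k b → b ∈ D := by
    rintro ⟨k, hk, D, d1, d2, d3, d4⟩
    refine ⟨fun x => Fin.castLE hr (k x), ?_, D, d1, d2, d3, ?_⟩
    · refine hk.mono ?_
      rintro x y ⟨h1, h2⟩
      exact ⟨h1, Fin.castLE_injective hr h2⟩
    · intro a b ha hab he
      exact d4 a b ha hab (Fin.castLE_injective hr he)
  by_cases hor : y ∈ C ∨ w ∈ C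
  · exact up (cov3_S h3 hC hxy hxw hyw hor)
  · push Not at hor
    obtain ⟨hy, hw⟩ := hor
    have hx : x ∈ C := (hC x y hxy).resolve_right hy
    obtain ⟨a, b, ha, hb, hall⟩ := enum2 h3 hx
    -- small covers
    by_cases hax : a = x
    · refine up (part_CI hC x ?_ hx hy hw hyw)
      intro s hs t ht hst
      rcases hall s hs with h | h | h
      · exact Or.inl h
      · exact Or.inl (h.trans hax)
      · rcases hall t ht with h' | h' | h'
        · exact Or.inr h'
        · exact Or.inr (h'.trans hax)
        · exact absurd (h.trans h'.symm) hst.ne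
    by_cases hbx : b = x
    · refine up (part_CI hC x ?_ hx hy hw hyw)
      intro s hs t ht hst
      rcases hall s hs with h | h | h
      · exact Or.inl h
      · rcases hall t ht with h' | h' | h'
        · exact Or.inr h'
        · exact absurd (h.trans h'.symm) hst.ne
        · exact Or.inr (h'.trans hbx)
      · exact Or.inl (h.trans hbx)
    by_cases hab : a = b
    · refine up (part_CI hC x ?_ hx hy hw hyw)
      intro s hs t ht hst
      rcases hall s hs with h | h | h
      · exact Or.inl h
      · rcases hall t ht with h' | h' | h'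
        · exact Or.inr h'
        · exact absurd (h.trans h'.symm) hst.ne
        · exact absurd (h.trans (hab.trans h'.symm)) hst.ne
      · rcases hall t ht with h' | h' | h'
        · exact Or.inr h'
        · exact absurd (h.trans (hab.symm.trans h'.symm)) hst.ne
        · exact absurd (h.trans h'.symm) hst.ne
    have haw : a ≠ w := fun h => hw (h ▸ ha)
    have hbw : b ≠ w := fun h => hw (h ▸ hb)
    have hay : a ≠ y := fun h => hy (h ▸ ha)
    have hby : b ≠ y := fun h => hy (h ▸ hb)
    -- `w` misses `a` or `b`: `x + I | a b w`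
    have miss : ∀ a b, a ∈ C → b ∈ C → a ≠ x → b ≠ x → (∀ z ∈ C, z = x ∨ z = a ∨ z = b) →
        ¬ G.Adj w a → ∃ k : V → Fin 2, Fo (fun a b => G.Adj a b ∧ k a = k b) ∧
      ∃ D : Set V, w ∈ D ∧ x ∉ D ∧ y ∉ D ∧ ∀ a b, a ∈ D → G.Adj a b → k a = k b → b ∈ D := by
      intro a b ha hb hax hbx hall hwa
      have haw : a ≠ w := fun h => hw (h ▸ ha)
      have hay : a ≠ y := fun h => hy (h ▸ ha)
      have hby : b ≠ y := fun h => hy (h ▸ hb)
      obtain ⟨k, hk0, hk1⟩ : ∃ k : V → Fin 2, (∀ z, k z = 0 ↔ (z = a ∨ z = b ∨ z = w)) ∧
          ∀ z, k z = 1 ↔ ¬ (z = a ∨ z = b ∨ z = w) := by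
        refine ⟨fun z => if z = a ∨ z = b ∨ z = w then 0 else 1, fun z => ?_, fun z => ?_⟩
        · by_cases h : z = a ∨ z = b ∨ z = w
          · simp only [if_pos h]
            exact ⟨fun _ => h, fun _ => trivial⟩
          · simp only [if_neg h]
            exact ⟨fun h' => absurd h' (by decide), fun h' => absurd h' h⟩
        · by_cases h : z = a ∨ z = b ∨ z = w
          · simp only [if_pos h]
            exact ⟨fun h' => absurd h' (by decide), fun h' => absurd h h'⟩
          · simp only [if_neg h]
            exact ⟨fun _ => h, fun _ => trivial⟩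
      apply Sp.of_class k
      · apply Fo.two
        · apply Fo.star b (fun x hx => G.loopless.irrefl x hx.1)
          rintro s t ⟨hst, h1, h2⟩
          rcases (hk0 s).1 h1 with rfl | rfl | rfl
          · rcases (hk0 t).1 h2 with rfl | rfl | rfl
            · exact absurd rfl hst.ne
            · exact Or.inr rfl
            · exact absurd hst.symm hwa
          · exact Or.inl rfl
          · rcases (hk0 t).1 h2 with rfl | rfl | rfl
            · exact absurd hst hwa
            · exact Or.inr rfl
            · exact absurd rfl hst.ne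
        · apply Fo.star x (fun x hx => G.loopless.irrefl x hx.1)
          rintro s t ⟨hst, h1, h2⟩
          have h1' := (hk1 s).1 h1
          have h2' := (hk1 t).1 h2
          rcases hC s t hst with h | h
          · rcases hall s h with h | h | h
            · exact Or.inl h
            · exact absurd (Or.inl h) h1'
            · exact absurd (Or.inr (Or.inl h)) h1'
          · rcases hall t h with h | h | h
            · exact Or.inr h
            · exact absurd (Or.inl h) h2'
            · exact absurd (Or.inr (Or.inl h)) h2'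
      · rw [(hk0 w).2 (Or.inr (Or.inr rfl)), (hk1 x).2 (by
          rintro (h | h | h)
          · exact hax h.symm
          · exact hbx h.symm
          · exact hxw.ne h)]
        decide
      · rw [(hk0 w).2 (Or.inr (Or.inr rfl)), (hk1 y).2 (by
          rintro (h | h | h)
          · exact hay h.symm
          · exact hby h.symm
          · exact hyw h)]
        decide
    by_cases hwa : G.Adj w a
    · by_cases hwb : G.Adj w b
      · -- `w` sees all of `C`
        by_cases htri : G.Adj x a ∧ G.Adj x b ∧ G.Adj a b
        · -- a copy of `K_4`: `3 ≤ r`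
          have hr3 : 3 ≤ r := by
            by_contra hlt
            have h2 : r = 2 := by omega
            subst h2
            obtain ⟨φ⟩ := hG
            have e1 := φ.valid htri.1
            have e2 := φ.valid htri.2.1
            have e3 := φ.valid htri.2.2
            have e4 := φ.valid hwa
            have e5 := φ.valid hwb
            have e6 := φ.valid hxw
            revert e1 e2 e3 e4 e5 e6
            generalize φ x = i
            generalize φ a = j
            generalize φ b = l
            generalize φ w = m
            revert i j l m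
            decide
          -- classes `x + I`, `a + w`, `b`
          obtain ⟨k, hk0, hk1, hk2⟩ : ∃ k : V → Fin 3, (∀ z, k z = 0 → ¬ (z = a ∨ z = b ∨ z = w)) ∧
              (∀ z, k z = 1 → z = a ∨ z = w) ∧ (∀ z, k z = 2 → z = b) ∧ True ∧ k w = 1 ∧ k x = 0 ∧
                k y = 0 := by
            refine ⟨fun z => if z = b then 2 else if z = a ∨ z = w then 1 else 0, ?_, ?_, ?_,
              trivial, ?_, ?_, ?_⟩
            · intro z hz
              rintro (h | h | h)
              · simp [h, hab] at hz
              · simp [h] at hz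
              · simp [h, hbw.symm] at hz
            · intro z hz
              by_contra hc
              simp only [if_neg hc] at hz
              split_ifs at hz <;> simp at hz
            · intro z hz
              by_contra hc
              simp only [if_neg hc] at hz
              split_ifs at hz <;> simp at hz
            · simp [hbw.symm]
            · simp [Ne.symm hax, Ne.symm hbx, hxw.ne]
            · simp [hby.symm, hay.symm, hyw]
          obtain ⟨hk2, _, kw, kx, ky⟩ := hk2
          have := Sp.of_class (G := G) (y := y) (x := x) (w := w) k (three_stars x a b ?_ ?_ ?_)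
            (by rw [kx, kw]; decide) (by rw [ky, kw]; decide)
          · obtain ⟨k, hk, D, d1, d2, d3, d4⟩ := this
            refine ⟨fun x => Fin.castLE hr3 (k x), ?_, D, d1, d2, d3, ?_⟩
            · refine hk.mono ?_
              rintro x y ⟨h1, h2⟩
              exact ⟨h1, Fin.castLE_injective hr3 h2⟩
            · intro a b ha hab he
              exact d4 a b ha hab (Fin.castLE_injective hr3 he)
          · intro s t hst h1 h2
            have h1' := hk0 s h1
            have h2' := hk0 t h2
            rcases hC s t hst with h | h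
            · rcases hall s h with h | h | h
              · exact Or.inl h
              · exact absurd (Or.inl h) h1'
              · exact absurd (Or.inr (Or.inl h)) h1'
            · rcases hall t h with h | h | h
              · exact Or.inr h
              · exact absurd (Or.inl h) h2'
              · exact absurd (Or.inr (Or.inl h)) h2'
          · intro s t hst h1 h2
            rcases hk1 s h1 with rfl | rfl
            · exact Or.inl rfl
            · rcases hk1 t h2 with rfl | rfl
              · exact Or.inr rfl
              · exact absurd rfl hst.ne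
          · intro s t hst h1 h2
            exact Or.inl (hk2 s h1)
        · -- `C` is not a triangle
          have hst : ∃ c, ∀ s ∈ C, ∀ t ∈ C, G.Adj s t → s = c ∨ t = c := by
            by_cases h1 : G.Adj x a
            · by_cases h2 : G.Adj x b
              · refine ⟨x, ?_⟩
                have h5 : ¬ G.Adj a b := fun h => htri ⟨h1, h2, h⟩
                intro s hs t ht hst
                rcases hall s hs with rfl | rfl | rfl
                · exact Or.inl rfl
                · rcases hall t ht with rfl | rfl | rfl
                  · exact Or.inr rfl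
                  · exact absurd rfl hst.ne
                  · exact absurd hst h5
                · rcases hall t ht with rfl | rfl | rfl
                  · exact Or.inr rfl
                  · exact absurd hst.symm h5
                  · exact absurd rfl hst.ne
              · refine ⟨a, ?_⟩
                intro s hs t ht hst
                rcases hall s hs with rfl | rfl | rfl
                · rcases hall t ht with rfl | rfl | rfl
                  · exact absurd rfl hst.ne
                  · exact Or.inr rfl
                  · exact absurd hst h2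
                · exact Or.inl rfl
                · rcases hall t ht with rfl | rfl | rfl
                  · exact absurd hst.symm h2
                  · exact Or.inr rfl
                  · exact absurd rfl hst.ne
            · refine ⟨b, ?_⟩
              intro s hs t ht hst
              rcases hall s hs with rfl | rfl | rfl
              · rcases hall t ht with rfl | rfl | rfl
                · exact absurd rfl hst.ne
                · exact absurd hst h1
                · exact Or.inr rfl
              · rcases hall t ht with rfl | rfl | rfl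
                · exact absurd hst.symm h1
                · exact absurd rfl hst.ne
                · exact Or.inr rfl
              · exact Or.inl rfl
          obtain ⟨c, hst⟩ := hst
          exact up (part_CI hC c hst hx hy hw hyw)
      · exact up (miss b a hb ha hbx hax (fun z hz => by
          rcases hall z hz with h | h | h <;> simp [h]) hwb)
    · exact up (miss a b ha hb hax hbx hall hwa)

end MP3240LEAF
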