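import Pool.Agent.Lib.MP_3240be_co.P57.Ex
import Pool.Agent.Lib.MP_3240be_co.P57.Two
import Pool.Agent.Lib.MP_3240be_co.L51.R9
import Pool.Agent.Lib.MP_3240be_co.LEAF.Sp
import Pool.Agent.Lib.MP_3240be_co.R21.Sep
import Pool.Agent.Lib.MP_3240be_co.CO.Num

/-!
# MP_3240be_co, leaf modules, row R10: assembly

`LefStatement`, `LefgStatement` = rows R2 + R3 (leaf lemma), `Ae2Statement` = row R8.  `sep_all`: every connected
graph which is not bipartite is separated from all larger connected graphs.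
-/

set_option autoImplicit false

namespace MP3240LEAF

open Finset Function
open MP3240C (CxB)
open MP3240CO (XG Near Ind Meets GQFree ExB Sep Inn MainStatement ArbStatement)
open MP3240SSL (TD Sys Ssl)
open MP3240X (VQ cq)
open MP3240K (IsE)
open MP3240T (Emb)
open MP3240R (Sub Is1 Is2 Rig MaxR InBlob posB posB_inj posB_adj posB_b posB_fst posB_snd)
open Pool.Agent.Lib.MP_3240be_co.H36.Chrom (Sparse)

/-- Rows R2 and R3: for a maximal rigid graph `D` the set `X'` and the special pairs exist, or `D`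
has a cover of at most three vertices. -/
def LefStatement : Prop :=
  ∀ (n p d : ℕ) (H : SimpleGraph (Fin n)) (D : SimpleGraph (Fin d)), 1 ≤ p → H.Connected →
    H.Colorable (p + 2) → ¬ H.Colorable (p + 1) → MaxR H p D →
    (∃ (s : ℕ) (xs ys : Fin s → Fin n) (X' : Finset (Fin n)), Ind H X' ∧
      (∀ Z, Ind H Z → Meets H D Z → X'.card < Z.card) ∧ XG H X' xs ys ∧
      ∀ f, IsE D H f → (∃ i, f i ∈ X') ∨ ∃ t i j, D.Adj i j ∧ f i = xs t ∧ f j = ys t) ∨
    ∃ C : Finset (Fin d), C.card ≤ 3 ∧ ∀ u v, D.Adj u v → u ∈ C ∨ v ∈ C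

/-- The same with `GQFree`. -/
def LefgStatement : Prop :=
  ∀ (n p d : ℕ) (H : SimpleGraph (Fin n)) (D : SimpleGraph (Fin d)), 1 ≤ p → H.Connected →
    H.Colorable (p + 2) → ¬ H.Colorable (p + 1) → MaxR H p D →
    (∃ (s : ℕ) (xs ys : Fin s → Fin n) (X' : Finset (Fin n)), 1 ≤ s ∧ Ind H X' ∧
      (∀ Z, Ind H Z → Meets H D Z → X'.card < Z.card) ∧ XG H X' xs ys ∧
      GQFree H D X' xs ys p) ∨
    ∃ C : Finset (Fin d), C.card ≤ 3 ∧ ∀ u v, D.Adj u v → u ∈ C ∨ v ∈ C

/-- Row R8. -/
def Ae2Statement : Prop :=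
  ∀ (n p : ℕ) (H : SimpleGraph (Fin n)) (V : Type) [Fintype V] (M : SimpleGraph V), 1 ≤ p →
    Fintype.card V ≤ n → ¬ M.Colorable (p + 1) → ∀ (s : ℕ) (xs ys : Fin s → Fin n)
    (Bl J C : Type) (ty : Bl → Fin s → H.Dart) (io : Bl → Fin s → J) (R : C → C → Prop)
    (A : C → Prop) (F : V → VQ H s Bl J C), Is2 H p M xs ys ty io R A F →
    (¬ ∃ b, ∀ u, InBlob ty io b (F u)) →
    (∀ X : Finset (Fin n), X.card < Fintype.card V →
      PS (p + 1) (H.induce (X : Set (Fin n)))) → PS (p + 1) M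

/-- A subgraph of `H` has at most `n` vertices. -/
theorem sub_card {n : ℕ} {H : SimpleGraph (Fin n)} {V : Type} [Fintype V] {M : SimpleGraph V}
    (h : Sub M H) : Fintype.card V ≤ n := by
  obtain ⟨f, hf, -⟩ := h
  have := Fintype.card_le_of_injective f hf
  rwa [Fintype.card_fin] at this

/-- **Theorem (A).**  If all rigid subgraphs have (P) and (S), all subgraphs have. -/
theorem ps_all (hE : Ae2Statement) {n p : ℕ} {H : SimpleGraph (Fin n)} (hp : 1 ≤ p)
    (hR : ∀ (V : Type) [Finite V] (M : SimpleGraph V), Sub M H → Rig H p M → PS (p + 1) M) :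
    ∀ (k : ℕ) (V : Type) [Fintype V] (M : SimpleGraph V), Fintype.card V = k → Sub M H →
      PS (p + 1) M := by
  classical
  intro k
  induction k using Nat.strong_induction_on with
  | _ k ih =>
    intro V _ M hk hM
    by_cases hc : M.Colorable (p + 1)
    · exact PS.col hc
    by_cases hr : Rig H p M
    · exact hR V M hM hr
    by_cases h1 : ∀ (Y : Type) [Finite Y] (P : SimpleGraph Y), Sub P H → ∀ (Z : Sys P)
        (S : Set Z.M) (Γ : Z.V → Z.V → Prop) (A : Set Z.V) (F : V → Z.V), Is1 M Z S Γ A F →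
        ∃ m ∈ S, ∀ u, F u ∈ Set.range (Z.δ m)
    · have h2 : ¬ ∀ (s : ℕ) (xs ys : Fin s → Fin n) (Bl J C : Type) (ty : Bl → Fin s → H.Dart)
          (io : Bl → Fin s → J) (R : C → C → Prop) (A : C → Prop) (F : V → VQ H s Bl J C),
          Is2 H p M xs ys ty io R A F → ∃ b, ∀ u, InBlob ty io b (F u) := fun h2 =>
        hr ⟨hc, h1, h2⟩
      push Not at h2
      obtain ⟨s, xs, ys, Bl, J, C, ty, io, R, A, F, hF, hno⟩ := h2
      refine hE n p H V M hp (sub_card hM) hc s xs ys Bl J C ty io R A F hF ?_ ?_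
      · rintro ⟨b, hb⟩
        obtain ⟨u, hu⟩ := hno b
        exact hu (hb u)
      · intro X hX
        refine ih X.card (by omega) (X : Set (Fin n)) (H.induce (X : Set (Fin n))) ?_ ?_
        · simp
        · exact ⟨Subtype.val, Subtype.val_injective, fun x y h => h⟩
    · push Not at h1
      obtain ⟨Y, hY, P, hP, Z, S, Γ, A, F, hF, hno⟩ := h1
      refine MP3240R21.r7_ps (by omega) hF fun m hm => ?_
      obtain ⟨u, hu⟩ := hno m hm
      -- the used positions of the body `m`
      have hcard : ∀ t : {t | ∃ u, F u = Z.δ m t}, ∃ u, F u = Z.δ m t.1 := fun t => t.2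
      choose g hg using hcard
      have hgi : Injective g := by
        intro t t' htt
        apply Subtype.ext
        apply Z.inj m
        rw [← hg t, ← hg t', htt]
      have hfin : Finite {t | ∃ u, F u = Z.δ m t} := Finite.of_injective g hgi
      have := Fintype.ofFinite {t | ∃ u, F u = Z.δ m t}
      have hlt : Fintype.card {t | ∃ u, F u = Z.δ m t} < Fintype.card V := by
        refine Fintype.card_lt_of_injective_of_notMem g hgi (b := u) ?_
        rintro ⟨t, ht⟩
        apply hu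
        exact ⟨t.1, by rw [← hg t, ht]⟩
      refine ih _ (by omega) _ _ rfl ?_
      obtain ⟨f, hf, hA⟩ := hP
      exact ⟨fun t => f t.1, hf.comp Subtype.val_injective, fun x y h => hA _ _ h⟩

/-- A subgraph of a colourable graph. -/
theorem sub_col {n k : ℕ} {H : SimpleGraph (Fin n)} {V : Type} {M : SimpleGraph V}
    (h : Sub M H) (hc : H.Colorable k) : M.Colorable k := by
  obtain ⟨f, -, hA⟩ := h
  obtain ⟨C⟩ := hc
  exact ⟨SimpleGraph.Coloring.mk (fun v => C (f v)) fun {a b} hab => C.valid (hA a b hab)⟩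

/-- The gadgets of `X'` and the special pairs do not contain the rigid graph `D`. -/
theorem gq_free {n p d s : ℕ} {H : SimpleGraph (Fin n)} {D : SimpleGraph (Fin d)}
    (hD : Rig H p D) {X' : Finset (Fin n)} {xs ys : Fin s → Fin n} (hX : XG H X' xs ys)
    (hit : ∀ f, IsE D H f → (∃ i, f i ∈ X') ∨ ∃ t i j, D.Adj i j ∧ f i = xs t ∧ f j = ys t) :
    GQFree H D X' xs ys p := by
  classical
  intro Bl J C ty io R A hio hsp hsym hcx F hF hin hnr hadj
  have hX0 : XG H ∅ xs ys := ⟨hX.adj, fun t x hx => absurd hx (notMem_empty _), hX.ind⟩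
  obtain ⟨b, hb⟩ := hD.e2 s xs ys Bl J C ty io R A F ⟨hX0, hio, hsp, hsym, hcx, hF,
    fun u b w h => (hin u b w h).2, hnr, hadj⟩
  have hxs : ∀ t t', xs t = xs t' → t = t' := fun t t' h => by
    by_contra hne
    exact (hX.ind t t' hne).1 h
  have hxy : ∀ t t', xs t ≠ ys t' := fun t t' h => by
    by_cases hne : t = t'
    · subst hne
      exact (hX.adj t).ne h
    · exact (hX.ind t t' hne).2.1 h
  have hpos : ∀ u, (∃ w, F u = .b b w ∧ posB xs ys ty b (F u) = w) ∨
      (∃ j, F u = .z j (io b j) (ty b j).fst ∧ posB xs ys ty b (F u) = xs j) ∨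
      ∃ j, F u = .z j (io b j) (ty b j).snd ∧ posB xs ys ty b (F u) = ys j := by
    intro u
    rcases hb u with ⟨w, hw⟩ | ⟨j, hj | hj⟩
    · exact Or.inl ⟨w, hw, by rw [hw, posB_b]⟩
    · exact Or.inr (Or.inl ⟨j, hj, by rw [hj, posB_fst]⟩)
    · exact Or.inr (Or.inr ⟨j, hj, by rw [hj, posB_snd]⟩)
  rcases hit (fun u => posB xs ys ty b (F u)) ⟨fun u v huv => hF (posB_inj hX0 (hb u) (hb v)
      (fun b w h => (hin u b w h).2) (fun b w h => (hin v b w h).2) huv),
      fun u v huv => posB_adj (hb u) (hb v) (hadj u v huv)⟩ with ⟨u, hu⟩ | ⟨t, u, v, huv, h1, h2⟩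
  · rcases hpos u with ⟨w, hw, e⟩ | ⟨j, -, e⟩ | ⟨j, -, e⟩
    · rw [e] at hu
      exact (hin u b w hw).1 hu
    · rw [e] at hu
      exact (hX.off j _ hu).1 rfl
    · rw [e] at hu
      exact (hX.off j _ hu).2.1 rfl
  · have hu : F u = .z t (io b t) (ty b t).fst := by
      rcases hpos u with ⟨w, hw, e⟩ | ⟨j, hj, e⟩ | ⟨j, -, e⟩
      · exact absurd (e.symm.trans h1) ((hin u b w hw).2 t).1
      · rw [hxs _ _ (e.symm.trans h1)] at hj
        exact hj
      · exact absurd (e.symm.trans h1).symm (hxy t j)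
    have hv : ∃ j i x, F v = .z j i x := by
      rcases hpos v with ⟨w, hw, e⟩ | ⟨j, hj, -⟩ | ⟨j, hj, -⟩
      · exact absurd (e.symm.trans h2) ((hin v b w hw).2 t).2
      · exact ⟨_, _, _, hj⟩
      · exact ⟨_, _, _, hj⟩
    obtain ⟨j, i, x, hv⟩ := hv
    have h3 := hadj u v huv
    rw [hu, hv] at h3
    exact h3

/-- **The main theorem for a maximal rigid graph with `X'` and special pairs.** -/
theorem sep_maxR_gq (hM : MainStatement) (hS : ∀ g, Ssl g) {n p d s : ℕ}
    {H : SimpleGraph (Fin n)} {D : SimpleGraph (Fin d)} (hp : 1 ≤ p) (hs : 1 ≤ s)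
    (hcon : H.Connected) (hc : H.Colorable (p + 2)) (hnc : ¬ H.Colorable (p + 1))
    (hD : MaxR H p D) {X' : Finset (Fin n)} {xs ys : Fin s → Fin n} (hX' : Ind H X')
    (hlt : ∀ Z, Ind H Z → Meets H D Z → X'.card < Z.card) (hX : XG H X' xs ys)
    (hG : GQFree H D X' xs ys p) : Sep H := by
  classical
  obtain ⟨Y, hY, hYc, hYm⟩ := MP3240CO.exists_least H
    (fun Y => (H.induce {x | x ∉ Y}).Colorable (p + 1)) (MP3240CO.exists_class hc)
  have hYD : Meets H D Y := by
    intro f hf
    by_contra hcon'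
    push Not at hcon'
    exact hD.rig.ncol (MP3240CO.colorable_of_hom (G' := H.induce {x | x ∉ Y})
      (fun i => ⟨f i, hcon' i⟩) (fun a b hab => hf.2 a b hab) hYc)
  obtain ⟨Z, hZ, hZc, hZm⟩ := MP3240CO.exists_least H (fun Z => Meets H D Z) ⟨Y, hY, hYD⟩
  have hY1 : 0 < Y.card := by
    rw [card_pos, nonempty_iff_ne_empty]
    intro h0
    apply hnc
    exact MP3240CO.colorable_of_hom (G' := H.induce {x | x ∉ Y}) (fun x => ⟨x, by
      show x ∉ Y
      rw [h0]
      exact notMem_empty x⟩) (fun a b hab => hab) hYc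
  have hZ1 : X'.card < Z.card := hlt Z hZ hZc
  obtain ⟨sg, hsg⟩ : ∃ a, Y.card = a + 1 := ⟨Y.card - 1, by omega⟩
  obtain ⟨ta, hta⟩ : ∃ a, Z.card = a + 1 := ⟨Z.card - 1, by omega⟩
  obtain ⟨M⟩ := MP3240CO.mdata_of hY hYc hsg
  have hdn : d ≤ n := by
    have := sub_card hD.emb
    rwa [Fintype.card_fin] at this
  have hDc : D.Connected := hD.rig.connected hD.emb
  have hn : 0 < n := by
    have := hcon.nonempty
    exact Fin.pos_iff_nonempty.2 this
  obtain ⟨b₀, B, hEx⟩ := MP3240SSL.exc_rig hS (r := p + 1) sg ta H D Z hn (by omega) hDc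
    hD.rig.ncol hZc (fun Z' S Γ A hTD F hF hm hadj => hD.rig.e1 _ (H.induce {x | x ∉ Z})
      ⟨Subtype.val, Subtype.val_injective, fun x y h => h⟩ Z' S Γ A F ⟨hTD, hF, hm, hadj⟩)
  exact hM n d p s sg ta b₀ H D M Z X' xs ys B hp hs
    (MP3240CO.sig_of fun Y' h1 h2 => hsg ▸ hYm Y' h1 h2) hcon hDc (hD.rig.twoC hD.emb)
    (hD.rig.three hp) hdn hZ hta (fun X' h1 h2 => hta ▸ hZm X' h1 h2) hX' (by omega) hX
    hG hEx

/-- The same with the copies of `D` in place of `GQFree`. -/
theorem sep_maxR (hM : MainStatement) (hS : ∀ g, Ssl g) {n p d s : ℕ} {H : SimpleGraph (Fin n)}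
    {D : SimpleGraph (Fin d)} (hp : 1 ≤ p) (hcon : H.Connected) (hc : H.Colorable (p + 2))
    (hnc : ¬ H.Colorable (p + 1)) (hD : MaxR H p D) {X' : Finset (Fin n)}
    {xs ys : Fin s → Fin n} (hX' : Ind H X')
    (hlt : ∀ Z, Ind H Z → Meets H D Z → X'.card < Z.card) (hX : XG H X' xs ys)
    (hit : ∀ f, IsE D H f → (∃ i, f i ∈ X') ∨ ∃ t i j, D.Adj i j ∧ f i = xs t ∧ f j = ys t) :
    Sep H := by
  have hs : 1 ≤ s := by
    by_contra hs
    have hs0 : s = 0 := by omega
    subst hs0
    refine absurd (hlt X' hX' fun f hf => ?_) (lt_irrefl _)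
    rcases hit f hf with h | ⟨t, -⟩
    · exact h
    · exact t.elim0
  exact sep_maxR_gq hM hS hp hs hcon hc hnc hD hX' hlt hX (gq_free hD.rig hX hit)

/-- A class of a partition with the forest property induces a forest. -/
theorem acyclic_of_fo {V : Type} {G : SimpleGraph V} {K : Type} {k : V → K}
    (h : Fo (fun x y => G.Adj x y ∧ k x = k y)) (a : K) :
    (G.induce {x | k x = a}).IsAcyclic := by
  classical
  intro v c hc
  -- the vertices of the cycle
  let S : Finset V := (c.support.map Subtype.val).toFinset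
  have hSne : S.Nonempty := ⟨v.1, by
    simp only [S, List.mem_toFinset, List.mem_map]
    exact ⟨v, c.start_mem_support, rfl⟩⟩
  have hb := h S hSne
  have hdeg : ∀ x ∈ S, 2 ≤ (S.filter (fun y => G.Adj x y ∧ k x = k y)).card := by
    intro x hx
    simp only [S, List.mem_toFinset, List.mem_map] at hx
    obtain ⟨x', hx', rfl⟩ := hx
    have h2 := hc.ncard_neighborSet_toSubgraph_eq_two hx'
    obtain ⟨y, z, hyz, he⟩ := Set.ncard_eq_two.1 h2
    have hy : y ∈ c.toSubgraph.neighborSet x' := by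
      rw [he]
      exact Set.mem_insert _ _
    have hz : z ∈ c.toSubgraph.neighborSet x' := by
      rw [he]
      exact Set.mem_insert_of_mem _ (Set.mem_singleton _)
    have hmem : ∀ w, w ∈ c.toSubgraph.neighborSet x' →
        w.1 ∈ S.filter (fun y => G.Adj x'.1 y ∧ k x'.1 = k y) := by
      intro w hw
      have h3 : c.toSubgraph.Adj x' w := hw
      have h4 : w ∈ c.support := by
        have := c.toSubgraph.edge_vert h3.symm
        rwa [SimpleGraph.Walk.mem_verts_toSubgraph] at this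
      rw [mem_filter]
      refine ⟨?_, ?_, ?_⟩
      · simp only [S, List.mem_toFinset, List.mem_map]
        exact ⟨w, h4, rfl⟩
      · exact h3.adj_sub
      · exact (show k x'.1 = a from x'.2).trans (show k w.1 = a from w.2).symm
    have h5 : ({y.1, z.1} : Finset V) ⊆ S.filter (fun y => G.Adj x'.1 y ∧ k x'.1 = k y) := by
      intro w hw
      rw [mem_insert, mem_singleton] at hw
      rcases hw with rfl | rfl
      · exact hmem y hy
      · exact hmem z hz
    have h6 : ({y.1, z.1} : Finset V).card = 2 :=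
      card_pair (fun h => hyz (Subtype.ext h))
    exact h6 ▸ card_le_card h5
  have hsum : ((S ×ˢ S).filter (fun p : V × V => G.Adj p.1 p.2 ∧ k p.1 = k p.2)).card =
      ∑ x ∈ S, (S.filter (fun y => G.Adj x y ∧ k x = k y)).card := by
    rw [card_filter, sum_product]
    refine sum_congr rfl fun x _ => ?_
    rw [card_filter]
  have hge : 2 * S.card ≤ ∑ x ∈ S, (S.filter (fun y => G.Adj x y ∧ k x = k y)).card := by
    have := sum_le_sum hdeg
    rw [sum_const, smul_eq_mul] at this
    omega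
  rw [← hsum] at hge
  have hb' : ((S ×ˢ S).filter (fun p : V × V => G.Adj p.1 p.2 ∧ k p.1 = k p.2)).card + 2 ≤
      2 * S.card := by
    convert hb using 3
    ext q
    simp only [mem_filter]
  omega

/-- **Separation of the graphs of chromatic number `p + 2`.** -/
theorem sep_chi (hM : MainStatement) (hArb : ArbStatement) (hS : ∀ g, Ssl g)
    (hL : LefgStatement) (hE : Ae2Statement) {n p : ℕ} {H : SimpleGraph (Fin n)} (hp : 1 ≤ p)
    (hcon : H.Connected) (hc : H.Colorable (p + 2)) (hnc : ¬ H.Colorable (p + 1)) : Sep H := by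
  classical
  by_cases hex : ∃ (d : ℕ) (D : SimpleGraph (Fin d)), MaxR H p D ∧
      ∃ (s : ℕ) (xs ys : Fin s → Fin n) (X' : Finset (Fin n)), 1 ≤ s ∧ Ind H X' ∧
      (∀ Z, Ind H Z → Meets H D Z → X'.card < Z.card) ∧ XG H X' xs ys ∧
      GQFree H D X' xs ys p
  · obtain ⟨d, D, hD, s, xs, ys, X', h0, h1, h2, h3, h4⟩ := hex
    exact sep_maxR_gq hM hS hp h0 hcon hc hnc hD h1 h2 h3 h4
  · have hR : ∀ (V : Type) [Finite V] (M : SimpleGraph V), Sub M H → Rig H p M →
        PS (p + 1) M := by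
      intro V _ M hMH hr
      obtain ⟨d, D, hD, ⟨f, hf, hA⟩, -⟩ := MP3240R.exists_maxR hMH hr
      rcases hL n p d H D hp hcon hc hnc hD with h | ⟨C, hC, hcov⟩
      · exact absurd ⟨d, D, hD, h⟩ hex
      · have := Fintype.ofFinite V
        refine cov3 (by omega) (sub_col hMH hc) (univ.filter (fun v => f v ∈ C)) ?_ ?_
        · refine le_trans ?_ hC
          refine card_le_card_of_injOn f ?_ hf.injOn
          intro v hv
          exact (mem_filter.1 hv).2
        · intro x y hxy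
          rcases hcov _ _ (hA x y hxy) with h | h
          · exact Or.inl (mem_filter.2 ⟨mem_univ _, h⟩)
          · exact Or.inr (mem_filter.2 ⟨mem_univ _, h⟩)
    obtain ⟨⟨k, hk⟩, -⟩ := (ps_all hE hp hR n (Fin n) H (Fintype.card_fin n)
      ⟨id, injective_id, fun _ _ h => h⟩).1
    exact hArb n (p + 1) H (by omega) hcon hnc hc ⟨k, fun a => acyclic_of_fo hk a⟩

/-- **Every connected graph that is not bipartite is separated.** -/
theorem sep_of (hM : MainStatement) (hArb : ArbStatement) (hS : ∀ g, Ssl g)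
    (hL : LefgStatement) (hE : Ae2Statement) (n : ℕ) (H : SimpleGraph (Fin n))
    (hcon : H.Connected) (h2 : ¬ H.Colorable 2) : Sep H := by
  classical
  have hex : ∃ k, H.Colorable k := ⟨_, H.colorable_of_fintype⟩
  have h3 := Nat.find_spec hex
  have h4 : 3 ≤ Nat.find hex := by
    by_contra hlt
    exact h2 (h3.mono (by omega))
  obtain ⟨p, hp⟩ : ∃ p, Nat.find hex = p + 2 := ⟨Nat.find hex - 2, by omega⟩
  rw [hp] at h3
  refine sep_chi hM hArb hS hL hE (p := p) (by omega) hcon h3 fun h5 => ?_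
  have := Nat.find_min' hex h5
  omega

end MP3240LEAF
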