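import Mathlib

/-!
# MP_3240be_co: leaf lemma (findings 4835, 4844), row R6 and tools for forests

`Fo G`: every nonempty finite set `S` spans at most `2 |S| - 2` ordered pairs of `G`.
Tools: `Fo.mono`, `Fo.classes` (one class at a time), `Fo.glue` (gluing along a vertex or an
edge), `Fo.nil`, `Fo.star`, `Fo.dstar`, `Fo.bi`, `Fo.small`.
`PR.col`, `cov4`: graphs with an `r`-colouring, graphs with a vertex cover of at most 4 vertices.
-/

set_option autoImplicit false

namespace MP3240LEAF

open Finset

section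
open Classical
/-- Forests (symmetric irreflexive relations; ordered pairs). -/
def Fo {V : Type} (G : V → V → Prop) : Prop :=
  ∀ S : Finset V, S.Nonempty →
    ((S ×ˢ S).filter (fun p : V × V => G p.1 p.2)).card + 2 ≤ 2 * S.card

def PR {V : Type} (r : ℕ) (G : SimpleGraph V) : Prop :=
  (∃ k : V → Fin r, Fo (fun x y => G.Adj x y ∧ k x = k y)) ∧
    ∀ u v, G.Adj u v → ∀ e : Bool, ∃ k : V → Fin r,
      Fo (fun x y => G.Adj x y ∧ k x = k y) ∧ (k u = k v ↔ e = true)
end

open Classical in
/-- The number of ordered pairs in `S`. -/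
noncomputable def cnt {V : Type} (G : V → V → Prop) (S : Finset V) : ℕ :=
  ((S ×ˢ S).filter (fun p : V × V => G p.1 p.2)).card

theorem fo_iff {V : Type} {G : V → V → Prop} :
    Fo G ↔ ∀ S : Finset V, S.Nonempty → cnt G S + 2 ≤ 2 * S.card := by
  unfold Fo cnt
  rfl

theorem cnt_mono {V : Type} {G G' : V → V → Prop} {S S' : Finset V}
    (h : ∀ x ∈ S, ∀ y ∈ S, G x y → G' x y) (hS : S ⊆ S') : cnt G S ≤ cnt G' S' := by
  classical
  unfold cnt
  apply Finset.card_le_card
  intro p hp
  simp only [Finset.mem_filter, Finset.mem_product] at hp ⊢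
  exact ⟨⟨hS hp.1.1, hS hp.1.2⟩, h _ hp.1.1 _ hp.1.2 hp.2⟩

theorem Fo.mono {V : Type} {G G' : V → V → Prop} (h : Fo G') (hh : ∀ x y, G x y → G' x y) :
    Fo G := by
  rw [fo_iff] at h ⊢
  intro S hS
  have := h S hS
  have := cnt_mono (S := S) (S' := S) (fun x _ y _ => hh x y) le_rfl
  omega

/-- The pairs are in the subset `T`. -/
theorem cnt_sub {V : Type} {G : V → V → Prop} {S T : Finset V} (hT : T ⊆ S)
    (h : ∀ x ∈ S, ∀ y ∈ S, G x y → x ∈ T ∧ y ∈ T) : cnt G S = cnt G T := by
  classical
  unfold cnt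
  congr 1
  ext p
  simp only [Finset.mem_filter, Finset.mem_product]
  constructor
  · rintro ⟨⟨h1, h2⟩, h3⟩
    exact ⟨h _ h1 _ h2 h3, h3⟩
  · rintro ⟨⟨h1, h2⟩, h3⟩
    exact ⟨⟨hT h1, hT h2⟩, h3⟩

theorem cnt_empty {V : Type} {G : V → V → Prop} : cnt G (∅ : Finset V) = 0 := by
  simp [cnt]

/-- A disjoint union of classes. -/
theorem Fo.classes {V K : Type} {G : V → V → Prop} {k : V → K}
    (h : ∀ a, Fo (fun x y => G x y ∧ k x = a ∧ k y = a)) :
    Fo (fun x y => G x y ∧ k x = k y) := by
  classical
  rw [fo_iff]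
  intro S hS
  have h1 : cnt (fun x y => G x y ∧ k x = k y) S =
      ∑ a ∈ S.image k, cnt (fun x y => G x y ∧ k x = a ∧ k y = a) (S.filter (fun x => k x = a)) := by
    unfold cnt
    rw [Finset.card_eq_sum_card_fiberwise (f := fun p : V × V => k p.1) (t := S.image k)]
    · apply Finset.sum_congr rfl
      intro a _
      congr 1
      ext p
      simp only [Finset.mem_filter, Finset.mem_product]
      constructor
      · rintro ⟨⟨⟨h1, h2⟩, h3, h4⟩, h5⟩
        exact ⟨⟨⟨h1, h5⟩, h2, h4 ▸ h5⟩, h3, h5, h4 ▸ h5⟩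
      · rintro ⟨⟨⟨h1, h2⟩, h3, h4⟩, h5, h6, h7⟩
        exact ⟨⟨⟨h1, h3⟩, h5, h6.trans h7.symm⟩, h6⟩
    · intro p hp
      have hp0 := Finset.mem_coe.1 hp
      simp only [Finset.mem_filter, Finset.mem_product] at hp0
      exact Finset.mem_coe.2 (Finset.mem_image_of_mem k hp0.1.1)
  have h2 : S.card = ∑ a ∈ S.image k, (S.filter (fun x => k x = a)).card := by
    apply Finset.card_eq_sum_card_fiberwise
    intro x hx
    exact Finset.mem_coe.2 (Finset.mem_image_of_mem k hx)
  have h3 : ∑ a ∈ S.image k, (cnt (fun x y => G x y ∧ k x = a ∧ k y = a)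
      (S.filter (fun x => k x = a)) + 2) ≤ ∑ a ∈ S.image k, 2 * (S.filter (fun x => k x = a)).card := by
    apply Finset.sum_le_sum
    intro a ha
    apply fo_iff.1 (h a)
    obtain ⟨x, hx, hxa⟩ := Finset.mem_image.1 ha
    exact ⟨x, Finset.mem_filter.2 ⟨hx, hxa⟩⟩
  rw [Finset.sum_add_distrib, ← Finset.mul_sum, ← h1, ← h2, Finset.sum_const, smul_eq_mul] at h3
  have h4 : 1 ≤ (S.image k).card := Finset.card_pos.2 (hS.image k)
  omega

/-- Gluing along a vertex or an edge. -/
theorem Fo.glue {V : Type} {G1 G2 : V → V → Prop} {A1 A2 : Set V} (a b : V)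
    (h1 : Fo G1) (h2 : Fo G2) (m1 : ∀ x y, G1 x y → x ∈ A1 ∧ y ∈ A1)
    (m2 : ∀ x y, G2 x y → x ∈ A2 ∧ y ∈ A2) (hA : ∀ x, x ∈ A1 → x ∈ A2 → x = a ∨ x = b)
    (hab : a = b ∨ (G1 a b ∧ G1 b a ∧ G2 a b ∧ G2 b a)) :
    Fo (fun x y => G1 x y ∨ G2 x y) := by
  classical
  rw [fo_iff] at h1 h2 ⊢
  intro S hS
  set S1 := S.filter (fun x => x ∈ A1) with hS1
  set S2 := S.filter (fun x => x ∈ A2) with hS2
  have e1 : cnt G1 S = cnt G1 S1 := cnt_sub (Finset.filter_subset _ _) (fun x hx y hy h => by
    simp only [hS1, Finset.mem_filter]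
    exact ⟨⟨hx, (m1 x y h).1⟩, ⟨hy, (m1 x y h).2⟩⟩)
  have e2 : cnt G2 S = cnt G2 S2 := cnt_sub (Finset.filter_subset _ _) (fun x hx y hy h => by
    simp only [hS2, Finset.mem_filter]
    exact ⟨⟨hx, (m2 x y h).1⟩, ⟨hy, (m2 x y h).2⟩⟩)
  have e3 : cnt (fun x y => G1 x y ∨ G2 x y) S + cnt (fun x y => G1 x y ∧ G2 x y) S =
      cnt G1 S + cnt G2 S := by
    unfold cnt
    rw [← Finset.card_union_add_card_inter ((S ×ˢ S).filter (fun p : V × V => G1 p.1 p.2))]
    congr 2
    · ext p
      simp only [Finset.mem_filter, Finset.mem_union]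
      tauto
    · ext p
      simp only [Finset.mem_filter, Finset.mem_inter]
      tauto
  have e4 : (S1 ∪ S2).card + (S1 ∩ S2).card = S1.card + S2.card :=
    Finset.card_union_add_card_inter _ _
  have e5 : (S1 ∪ S2).card ≤ S.card := Finset.card_le_card (Finset.union_subset
    (Finset.filter_subset _ _) (Finset.filter_subset _ _))
  have e6 : S1 ∩ S2 ⊆ {a, b} := by
    intro x hx
    simp only [hS1, hS2, Finset.mem_inter, Finset.mem_filter] at hx
    rcases hA x hx.1.2 hx.2.2 with h | h <;> simp [h]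
  have hpos : 1 ≤ S.card := Finset.card_pos.2 hS
  rcases S1.eq_empty_or_nonempty with n1 | n1
  · rw [n1, cnt_empty] at e1
    rcases S2.eq_empty_or_nonempty with n2 | n2
    · rw [n2, cnt_empty] at e2
      omega
    · have := h2 S2 n2
      have := Finset.card_le_card (Finset.filter_subset (fun x => x ∈ A2) S)
      rw [← hS2] at this
      omega
  · rcases S2.eq_empty_or_nonempty with n2 | n2
    · rw [n2, cnt_empty] at e2
      have := h1 S1 n1
      have := Finset.card_le_card (Finset.filter_subset (fun x => x ∈ A1) S)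
      rw [← hS1] at this
      omega
    · have i1 := h1 S1 n1
      have i2 := h2 S2 n2
      by_cases hc : (S1 ∩ S2).card ≤ 1
      · omega
      · have hc2 : (S1 ∩ S2).card ≤ ({a, b} : Finset V).card := Finset.card_le_card e6
        have hne : a ≠ b := by
          rintro rfl
          simp at hc2
          omega
        have hc3 : ({a, b} : Finset V).card = 2 := Finset.card_pair hne
        have hc4 : S1 ∩ S2 = {a, b} := Finset.eq_of_subset_of_card_le e6 (by omega)
        have ha : a ∈ S1 ∩ S2 := by rw [hc4]; simp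
        have hb : b ∈ S1 ∩ S2 := by rw [hc4]; simp
        simp only [hS1, hS2, Finset.mem_inter, Finset.mem_filter] at ha hb
        obtain hab | ⟨g1, g2, g3, g4⟩ := hab
        · exact absurd hab hne
        · have : 2 ≤ cnt (fun x y => G1 x y ∧ G2 x y) S := by
            unfold cnt
            have hp : ({(a, b), (b, a)} : Finset (V × V)).card = 2 := by
              apply Finset.card_pair
              intro he
              exact hne (Prod.ext_iff.1 he).1
            rw [← hp]
            apply Finset.card_le_card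
            intro p hp
            simp only [Finset.mem_insert, Finset.mem_singleton] at hp
            simp only [Finset.mem_filter, Finset.mem_product]
            rcases hp with rfl | rfl
            · exact ⟨⟨ha.1.1, hb.1.1⟩, g1, g3⟩
            · exact ⟨⟨hb.1.1, ha.1.1⟩, g2, g4⟩
          omega

/-- No edges. -/
theorem Fo.nil {V : Type} {G : V → V → Prop} (h : ∀ x y, ¬ G x y) : Fo G := by
  classical
  rw [fo_iff]
  intro S hS
  have : cnt G S = 0 := by
    unfold cnt
    rw [Finset.card_eq_zero, Finset.filter_eq_empty_iff]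
    exact fun p _ => h _ _
  have hpos : 1 ≤ S.card := Finset.card_pos.2 hS
  omega

/-- Stars. -/
theorem Fo.star {V : Type} {G : V → V → Prop} (c : V) (hi : ∀ x, ¬ G x x)
    (h : ∀ x y, G x y → x = c ∨ y = c) : Fo G := by
  classical
  rw [fo_iff]
  intro S hS
  have hpos : 1 ≤ S.card := Finset.card_pos.2 hS
  by_cases hc : c ∈ S
  · have : cnt G S ≤ ((S.erase c).image (fun x => (x, c)) ∪ (S.erase c).image (fun x => (c, x))).card := by
      unfold cnt
      apply Finset.card_le_card
      intro p hp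
      obtain ⟨x, y⟩ := p
      simp only [Finset.mem_filter, Finset.mem_product] at hp
      obtain ⟨⟨hx, hy⟩, hG⟩ := hp
      simp only [Finset.mem_union, Finset.mem_image, Finset.mem_erase]
      rcases h x y hG with rfl | rfl
      · right
        exact ⟨y, ⟨fun he => hi _ (he ▸ hG), hy⟩, rfl⟩
      · left
        exact ⟨x, ⟨fun he => hi _ (he ▸ hG), hx⟩, rfl⟩
    have h2 := Finset.card_union_le ((S.erase c).image (fun x => (x, c)))
      ((S.erase c).image (fun x => (c, x)))
    have h3 : ((S.erase c).image (fun x => (x, c))).card ≤ (S.erase c).card := Finset.card_image_le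
    have h4 : ((S.erase c).image (fun x => (c, x))).card ≤ (S.erase c).card := Finset.card_image_le
    have h5 := Finset.card_erase_of_mem hc
    omega
  · have : cnt G S = 0 := by
      unfold cnt
      rw [Finset.card_eq_zero, Finset.filter_eq_empty_iff]
      rintro ⟨x, y⟩ hp hG
      simp only [Finset.mem_product] at hp
      rcases h x y hG with rfl | rfl
      · exact hc hp.1
      · exact hc hp.2
    omega

/-- Double stars. -/
theorem Fo.dstar {V : Type} {G : V → V → Prop} (a b : V) (hi : ∀ x, ¬ G x x)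
    (hs : ∀ x y, G x y → G y x) (h : ∀ x y, G x y → x = a ∨ y = a ∨ x = b ∨ y = b)
    (hab : ∀ x, G x a → G x b → False) : Fo G := by
  classical
  by_cases hne : a = b
  · subst hne
    exact Fo.star a hi (fun x y hG => by rcases h x y hG with h | h | h | h <;> simp [h])
  set G1 : V → V → Prop := fun x y => G x y ∧ (x = a ∨ y = a) with hG1
  set G2 : V → V → Prop := fun x y => G x y ∧ (x ≠ a ∧ y ≠ a) with hG2
  have f1 : Fo G1 := Fo.star a (fun x hx => hi x hx.1) (fun x y hx => hx.2)
  have f2 : Fo G2 := Fo.star b (fun x hx => hi x hx.1) (fun x y hx => by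
    rcases h x y hx.1 with h | h | h | h
    · exact absurd h hx.2.1
    · exact absurd h hx.2.2
    · exact Or.inl h
    · exact Or.inr h)
  have f3 := Fo.glue (A1 := {x | x = a ∨ G x a}) (A2 := {x | x = b ∨ (x ≠ a ∧ G x b)}) b b f1 f2
    (by
      rintro x y ⟨hxy, rfl | rfl⟩
      · exact ⟨Or.inl rfl, Or.inr (hs _ _ hxy)⟩
      · exact ⟨Or.inr hxy, Or.inl rfl⟩)
    (by
      rintro x y ⟨hxy, h1, h2⟩
      rcases h x y hxy with h | h | h | h
      · exact absurd h h1
      · exact absurd h h2
      · subst h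
        exact ⟨Or.inl rfl, Or.inr ⟨h2, hs _ _ hxy⟩⟩
      · subst h
        exact ⟨Or.inr ⟨h1, hxy⟩, Or.inl rfl⟩)
    (by
      rintro x (rfl | h1) (h2 | ⟨h2, h3⟩)
      · exact Or.inl h2
      · exact absurd rfl h2
      · exact Or.inl h2
      · exact (hab x h1 h3).elim)
    (Or.inl rfl)
  refine f3.mono ?_
  intro x y hxy
  by_cases hh : x = a ∨ y = a
  · exact Or.inl ⟨hxy, hh⟩
  · push Not at hh
    exact Or.inr ⟨hxy, hh⟩

theorem PR.mono {V : Type} {r s : ℕ} {G : SimpleGraph V} (h : PR r G) (hrs : r ≤ s) : PR s G := by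
  have key : ∀ k : V → Fin r, Fo (fun x y => G.Adj x y ∧ k x = k y) →
      Fo (fun x y => G.Adj x y ∧ Fin.castLE hrs (k x) = Fin.castLE hrs (k y)) := by
    intro k hk
    refine hk.mono ?_
    rintro x y ⟨h1, h2⟩
    exact ⟨h1, Fin.castLE_injective hrs h2⟩
  refine ⟨?_, ?_⟩
  · obtain ⟨k, hk⟩ := h.1
    exact ⟨_, key k hk⟩
  · intro u v huv e
    obtain ⟨k, hk, hk2⟩ := h.2 u v huv e
    refine ⟨fun x => Fin.castLE hrs (k x), key k hk, ?_⟩
    rw [← hk2]
    exact (Fin.castLE_injective hrs).eq_iff

/-- It is enough to treat the edges. -/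
theorem PR.of_edges {V : Type} {r : ℕ} {G : SimpleGraph V} (hr : 1 ≤ r)
    (h : ∀ u v, G.Adj u v → ∀ e : Bool, ∃ k : V → Fin r,
      Fo (fun x y => G.Adj x y ∧ k x = k y) ∧ (k u = k v ↔ e = true)) : PR r G := by
  refine ⟨?_, h⟩
  by_cases hex : ∃ u v, G.Adj u v
  · obtain ⟨u, v, huv⟩ := hex
    obtain ⟨k, hk, _⟩ := h u v huv true
    exact ⟨k, hk⟩
  · push Not at hex
    exact ⟨fun _ => ⟨0, hr⟩, Fo.nil (fun x y hh => hex x y hh.1)⟩

/-- Colourable graphs. -/
theorem PR.col {V : Type} {r : ℕ} {G : SimpleGraph V} (h : G.Colorable r) : PR r G := by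
  classical
  obtain ⟨φ⟩ := h
  have h0 : Fo (fun x y => G.Adj x y ∧ φ x = φ y) := Fo.nil (fun x y hh => φ.valid hh.1 hh.2)
  refine ⟨⟨φ, h0⟩, ?_⟩
  intro u v huv e
  cases e with
  | false => exact ⟨φ, h0, by simp [φ.valid huv]⟩
  | true =>
    refine ⟨Function.update φ u (φ v), ?_, ?_⟩
    · apply Fo.star u
      · exact fun x hx => G.loopless.irrefl x hx.1
      · rintro x y ⟨h1, h2⟩
        by_contra hc
        push Not at hc
        rw [Function.update_of_ne hc.1, Function.update_of_ne hc.2] at h2
        exact φ.valid h1 h2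
    · simp [Function.update_of_ne huv.ne']

/-- The relation is symmetric in the edge. -/
theorem edge_wlog {V : Type} {r : ℕ} {G : SimpleGraph V} {C : Finset V}
    (hC : ∀ x y, G.Adj x y → x ∈ C ∨ y ∈ C)
    (h : ∀ u v, G.Adj u v → u ∈ C → ∀ e : Bool, ∃ k : V → Fin r,
      Fo (fun x y => G.Adj x y ∧ k x = k y) ∧ (k u = k v ↔ e = true)) :
    ∀ u v, G.Adj u v → ∀ e : Bool, ∃ k : V → Fin r,
      Fo (fun x y => G.Adj x y ∧ k x = k y) ∧ (k u = k v ↔ e = true) := by
  intro u v huv e
  rcases hC u v huv with hu | hv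
  · exact h u v huv hu e
  · obtain ⟨k, hk, hk2⟩ := h v u huv.symm hv e
    exact ⟨k, hk, by rw [← hk2]; exact eq_comm⟩

/-- Enumeration of the rest of a small set. -/
theorem enum3 {V : Type} {C : Finset V} {u : V} (hu : u ∈ C) (h4 : C.card ≤ 4) :
    ∃ a b c, a ∈ C ∧ b ∈ C ∧ c ∈ C ∧ ∀ x ∈ C, x = u ∨ x = a ∨ x = b ∨ x = c := by
  classical
  have h1 : (C.erase u).card ≤ 3 := by
    rw [Finset.card_erase_of_mem hu]
    omega
  have h2 : ∃ l : List V, (∀ x, x ∈ l ↔ x ∈ C.erase u) ∧ l.length ≤ 3 :=
    ⟨(C.erase u).toList, fun x => Finset.mem_toList, by rw [Finset.length_toList]; exact h1⟩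
  obtain ⟨l, hl, hl3⟩ := h2
  have hm : ∀ x ∈ C, x = u ∨ x ∈ l := by
    intro x hx
    by_cases hxu : x = u
    · exact Or.inl hxu
    · exact Or.inr ((hl x).2 (Finset.mem_erase.2 ⟨hxu, hx⟩))
  have hm2 : ∀ x ∈ l, x ∈ C := fun x hx => (Finset.mem_erase.1 ((hl x).1 hx)).2
  match l, hl3, hm, hm2 with
  | [], _, hm, _ => exact ⟨u, u, u, hu, hu, hu, fun x hx => by
      rcases hm x hx with h | h
      · exact Or.inl h
      · simp at h⟩
  | [a], _, hm, hm2 => exact ⟨a, u, u, hm2 a (by simp), hu, hu, fun x hx => by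
      rcases hm x hx with h | h
      · exact Or.inl h
      · simp at h
        exact Or.inr (Or.inl h)⟩
  | [a, b], _, hm, hm2 => exact ⟨a, b, u, hm2 a (by simp), hm2 b (by simp), hu, fun x hx => by
      rcases hm x hx with h | h
      · exact Or.inl h
      · simp at h
        rcases h with h | h
        · exact Or.inr (Or.inl h)
        · exact Or.inr (Or.inr (Or.inl h))⟩
  | [a, b, c], _, hm, hm2 => exact ⟨a, b, c, hm2 a (by simp), hm2 b (by simp), hm2 c (by simp),
      fun x hx => by
        rcases hm x hx with h | h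
        · exact Or.inl h
        · simp at h
          exact Or.inr h⟩
  | _ :: _ :: _ :: _ :: _, h, _, _ =>
    simp only [List.length_cons] at h
    omega

/-- Partitions into a star at `a`, a star at `b` and a star at `u`. -/
theorem three_stars {V : Type} {G : SimpleGraph V} {k : V → Fin 3} (a b c : V)
    (h0 : ∀ x y, G.Adj x y → k x = 0 → k y = 0 → x = a ∨ y = a)
    (h1 : ∀ x y, G.Adj x y → k x = 1 → k y = 1 → x = b ∨ y = b)
    (h2 : ∀ x y, G.Adj x y → k x = 2 → k y = 2 → x = c ∨ y = c) :
    Fo (fun x y => G.Adj x y ∧ k x = k y) := by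
  apply Fo.classes
  intro i
  have hi : i = 0 ∨ i = 1 ∨ i = 2 := by
    revert i
    decide
  rcases hi with rfl | rfl | rfl
  · exact Fo.star a (fun x hx => G.loopless.irrefl x hx.1) (fun x y h => h0 x y h.1 h.2.1 h.2.2)
  · exact Fo.star b (fun x hx => G.loopless.irrefl x hx.1) (fun x y h => h1 x y h.1 h.2.1 h.2.2)
  · exact Fo.star c (fun x hx => G.loopless.irrefl x hx.1) (fun x y h => h2 x y h.1 h.2.1 h.2.2)

theorem cov4_three {V : Type} {G : SimpleGraph V} {C : Finset V} (h4 : C.card ≤ 4)
    (hC : ∀ x y, G.Adj x y → x ∈ C ∨ y ∈ C) : PR 3 G := by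
  classical
  apply PR.of_edges (by norm_num)
  apply edge_wlog hC
  intro u v huv hu e
  by_cases hv : v ∈ C
  · obtain ⟨a, b, c, ha, hb, hc, hall⟩ := enum3 hu h4
    -- two further vertices besides `u`, `v`
    obtain ⟨b', c', hb', hc', hall'⟩ : ∃ b' c', b' ∈ C ∧ c' ∈ C ∧
        ∀ x ∈ C, x = u ∨ x = v ∨ x = b' ∨ x = c' := by
      rcases hall v hv with h | h | h | h
      · exact absurd h huv.ne'
      · subst h
        exact ⟨b, c, hb, hc, hall⟩
      · subst h
        refine ⟨a, c, ha, hc, fun x hx => ?_⟩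
        rcases hall x hx with h | h | h | h <;> simp [h]
      · subst h
        refine ⟨a, b, ha, hb, fun x hx => ?_⟩
        rcases hall x hx with h | h | h | h <;> simp [h]
    cases e with
    | true =>
      -- `u v | b' I | c'`
      set k : V → Fin 3 := fun x => if x = u ∨ x = v then 0 else if x = c' then 2 else 1 with hk
      have k0 : ∀ x, k x = 0 → x = u ∨ x = v := by
        intro x hx
        by_contra hc
        simp only [hk, if_neg hc] at hx
        split_ifs at hx <;> simp at hx
      have k1 : ∀ x, k x = 1 → x ∉ C ∨ x = b' := by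
        intro x hx
        by_contra hc
        push Not at hc
        have := hall' x hc.1
        have h1 : ¬ (x = u ∨ x = v) := fun h => by
          simp only [hk, if_pos h] at hx
          exact absurd hx (by decide)
        simp only [hk, if_neg h1] at hx
        have h2 : x = c' := by tauto
        simp only [if_pos h2] at hx
        exact absurd hx (by decide)
      have k2 : ∀ x, k x = 2 → x = c' := by
        intro x hx
        by_contra hc
        simp only [hk, if_neg hc] at hx
        split_ifs at hx <;> simp at hx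
      refine ⟨k, three_stars u b' c' ?_ ?_ ?_, ?_⟩
      · intro x y hxy h1 h2
        rcases k0 x h1 with rfl | rfl
        · exact Or.inl rfl
        · rcases k0 y h2 with rfl | rfl
          · exact Or.inr rfl
          · exact (hxy.ne rfl).elim
      · intro x y hxy h1 h2
        rcases k1 x h1 with h | h
        · rcases k1 y h2 with h' | h'
          · rcases hC x y hxy with h'' | h''
            · exact absurd h'' h
            · exact absurd h'' h'
          · exact Or.inr h'
        · exact Or.inl h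
      · intro x y hxy h1 h2
        exact Or.inl (k2 x h1)
      · simp [hk]
    | false =>
      -- `u I | v | b' c'`
      set k : V → Fin 3 := fun x => if x = v then 1 else if x ≠ u ∧ (x = b' ∨ x = c') then 2 else 0
        with hk
      have k0 : ∀ x, k x = 0 → x ∉ C ∨ x = u := by
        intro x hx
        by_contra hc
        push Not at hc
        have := hall' x hc.1
        have h1 : ¬ (x = v) := fun h => by
          simp only [hk, if_pos h] at hx
          exact absurd hx (by decide)
        simp only [hk, if_neg h1] at hx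
        have h2 : x ≠ u ∧ (x = b' ∨ x = c') := by tauto
        simp only [if_pos h2] at hx
        exact absurd hx (by decide)
      have k1 : ∀ x, k x = 1 → x = v := by
        intro x hx
        by_contra hc
        simp only [hk, if_neg hc] at hx
        split_ifs at hx <;> simp at hx
      have k2 : ∀ x, k x = 2 → x = b' ∨ x = c' := by
        intro x hx
        by_contra hc
        have h1 : ¬ (x = v) := fun h => by
          simp only [hk, if_pos h] at hx
          exact absurd hx (by decide)
        have h2 : ¬ (x ≠ u ∧ (x = b' ∨ x = c')) := fun h => hc h.2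
        simp only [hk, if_neg h1, if_neg h2] at hx
        simp at hx
      refine ⟨k, three_stars u v b' ?_ ?_ ?_, ?_⟩
      · intro x y hxy h1 h2
        rcases k0 x h1 with h | h
        · rcases k0 y h2 with h' | h'
          · rcases hC x y hxy with h'' | h''
            · exact absurd h'' h
            · exact absurd h'' h'
          · exact Or.inr h'
        · exact Or.inl h
      · intro x y hxy h1 h2
        exact Or.inl (k1 x h1)
      · intro x y hxy h1 h2
        rcases k2 x h1 with rfl | rfl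
        · exact Or.inl rfl
        · rcases k2 y h2 with rfl | rfl
          · exact Or.inr rfl
          · exact (hxy.ne rfl).elim
      · simp [hk, huv.ne]
  · obtain ⟨a, b, c, ha, hb, hc, hall⟩ := enum3 hu h4
    have hva : v ≠ a := fun h => hv (h ▸ ha)
    have hvb : v ≠ b := fun h => hv (h ▸ hb)
    have hvc : v ≠ c := fun h => hv (h ▸ hc)
    cases e with
    | true =>
      -- `u I | a | b c`
      set k : V → Fin 3 := fun x => if x ≠ u ∧ x = a then 1 else
        if x ≠ u ∧ (x = b ∨ x = c) then 2 else 0 with hk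
      have k0 : ∀ x, k x = 0 → x ∉ C ∨ x = u := by
        intro x hx
        by_contra hc
        push Not at hc
        have := hall x hc.1
        have h1 : ¬ (x ≠ u ∧ x = a) := fun h => by
          simp only [hk, if_pos h] at hx
          exact absurd hx (by decide)
        simp only [hk, if_neg h1] at hx
        have h2 : x ≠ u ∧ (x = b ∨ x = c) := by tauto
        simp only [if_pos h2] at hx
        exact absurd hx (by decide)
      have k1 : ∀ x, k x = 1 → x = a := by
        intro x hx
        by_contra hc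
        have h1 : ¬ (x ≠ u ∧ x = a) := fun h => hc h.2
        simp only [hk, if_neg h1] at hx
        split_ifs at hx <;> simp at hx
      have k2 : ∀ x, k x = 2 → x = b ∨ x = c := by
        intro x hx
        by_contra hc
        have h1 : ¬ (x ≠ u ∧ x = a) := fun h => by
          simp only [hk, if_pos h] at hx
          exact absurd hx (by decide)
        have h2 : ¬ (x ≠ u ∧ (x = b ∨ x = c)) := fun h => hc h.2
        simp only [hk, if_neg h1, if_neg h2] at hx
        simp at hx
      refine ⟨k, three_stars u a b ?_ ?_ ?_, ?_⟩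
      · intro x y hxy h1 h2
        rcases k0 x h1 with h | h
        · rcases k0 y h2 with h' | h'
          · rcases hC x y hxy with h'' | h''
            · exact absurd h'' h
            · exact absurd h'' h'
          · exact Or.inr h'
        · exact Or.inl h
      · intro x y hxy h1 h2
        exact Or.inl (k1 x h1)
      · intro x y hxy h1 h2
        rcases k2 x h1 with rfl | rfl
        · exact Or.inl rfl
        · rcases k2 y h2 with rfl | rfl
          · exact Or.inr rfl
          · exact (hxy.ne rfl).elim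
      · simp [hk, hva, hvb, hvc]
    | false =>
      -- `u | a I | b c`
      set k : V → Fin 3 := fun x => if x = u then 0 else
        if x ≠ a ∧ (x = b ∨ x = c) then 2 else 1 with hk
      have k0 : ∀ x, k x = 0 → x = u := by
        intro x hx
        by_contra hc
        simp only [hk, if_neg hc] at hx
        split_ifs at hx <;> simp at hx
      have k1 : ∀ x, k x = 1 → x ∉ C ∨ x = a := by
        intro x hx
        by_contra hc
        push Not at hc
        have := hall x hc.1
        have h1 : ¬ (x = u) := fun h => by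
          simp only [hk, if_pos h] at hx
          exact absurd hx (by decide)
        simp only [hk, if_neg h1] at hx
        have h2 : x ≠ a ∧ (x = b ∨ x = c) := by tauto
        simp only [if_pos h2] at hx
        exact absurd hx (by decide)
      have k2 : ∀ x, k x = 2 → x = b ∨ x = c := by
        intro x hx
        by_contra hc
        have h1 : ¬ (x = u) := fun h => by
          simp only [hk, if_pos h] at hx
          exact absurd hx (by decide)
        have h2 : ¬ (x ≠ a ∧ (x = b ∨ x = c)) := fun h => hc h.2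
        simp only [hk, if_neg h1, if_neg h2] at hx
        simp at hx
      refine ⟨k, three_stars u a b ?_ ?_ ?_, ?_⟩
      · intro x y hxy h1 h2
        exact Or.inl (k0 x h1)
      · intro x y hxy h1 h2
        rcases k1 x h1 with h | h
        · rcases k1 y h2 with h' | h'
          · rcases hC x y hxy with h'' | h''
            · exact absurd h'' h
            · exact absurd h'' h'
          · exact Or.inr h'
        · exact Or.inl h
      · intro x y hxy h1 h2
        rcases k2 x h1 with rfl | rfl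
        · exact Or.inl rfl
        · rcases k2 y h2 with rfl | rfl
          · exact Or.inr rfl
          · exact (hxy.ne rfl).elim
      · simp [hk, hvb, hvc, huv.ne']

/-- Two classes. -/
theorem Fo.two {V : Type} {G : SimpleGraph V} {k : V → Fin 2}
    (h0 : Fo (fun x y => G.Adj x y ∧ k x = 0 ∧ k y = 0))
    (h1 : Fo (fun x y => G.Adj x y ∧ k x = 1 ∧ k y = 1)) :
    Fo (fun x y => G.Adj x y ∧ k x = k y) := by
  apply Fo.classes
  intro i
  have hi : i = 0 ∨ i = 1 := by
    revert i
    decide
  rcases hi with rfl | rfl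
  · exact h0
  · exact h1

/-- A bipartite graph on three vertices. -/
theorem Fo.small {V : Type} {G : V → V → Prop} (hi : ∀ x, ¬ G x x) (hs : ∀ x y, G x y → G y x)
    (T : Finset V) (hT : T.card ≤ 3) (φ : V → Fin 3) (q : Fin 3) (hq : ∀ x ∈ T, φ x ≠ q)
    (hφ : ∀ x y, G x y → φ x ≠ φ y) (h : ∀ x y, G x y → x ∈ T ∧ y ∈ T) : Fo G := by
  classical
  rcases T.eq_empty_or_nonempty with rfl | ⟨u, hu⟩
  · exact Fo.nil (fun x y hxy => by simpa using (h x y hxy).1)
  · by_cases hall : ∀ x ∈ T, φ x = φ u
    · exact Fo.nil (fun x y hxy => hφ x y hxy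
        ((hall x (h x y hxy).1).trans (hall y (h x y hxy).2).symm))
    · push Not at hall
      obtain ⟨v, hv, hvu⟩ := hall
      -- the two colour classes
      have h2 : ∀ x ∈ T, φ x = φ u ∨ φ x = φ v := by
        intro x hx
        have h1 := hq x hx
        have h2 := hq u hu
        have h3 := hq v hv
        clear hq
        revert h1 h2 h3 hvu
        generalize φ x = a
        generalize φ u = b
        generalize φ v = c
        revert a b c q
        decide
      have hc : (T.filter (fun x => φ x = φ u)).card + (T.filter (fun x => ¬ φ x = φ u)).card =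
          T.card := Finset.card_filter_add_card_filter_not _
      have hor : (T.filter (fun x => φ x = φ u)).card ≤ 1 ∨
          (T.filter (fun x => ¬ φ x = φ u)).card ≤ 1 := by omega
      rcases hor with h1 | h1
      · apply Fo.star u hi
        intro x y hxy
        obtain ⟨hx, hy⟩ := h x y hxy
        have key : ∀ z ∈ T, φ z = φ u → z = u := by
          intro z hz hzu
          exact Finset.card_le_one.1 h1 z (Finset.mem_filter.2 ⟨hz, hzu⟩) u
            (Finset.mem_filter.2 ⟨hu, rfl⟩)
        rcases h2 x hx with h3 | h3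
        · exact Or.inl (key x hx h3)
        · rcases h2 y hy with h4 | h4
          · exact Or.inr (key y hy h4)
          · exact absurd (h3.trans h4.symm) (hφ x y hxy)
      · apply Fo.star v hi
        intro x y hxy
        obtain ⟨hx, hy⟩ := h x y hxy
        have key : ∀ z ∈ T, φ z = φ v → z = v := by
          intro z hz hzu
          exact Finset.card_le_one.1 h1 z (Finset.mem_filter.2 ⟨hz, by rw [hzu]; exact hvu⟩) v
            (Finset.mem_filter.2 ⟨hv, hvu⟩)
        rcases h2 x hx with h3 | h3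
        · rcases h2 y hy with h4 | h4
          · exact absurd (h3.trans h4.symm) (hφ x y hxy)
          · exact Or.inr (key y hy h4)
        · exact Or.inl (key x hx h3)

/-- One colour is missing on the cover. -/
theorem cov4_bip {V : Type} {G : SimpleGraph V} {C : Finset V} (h4 : C.card ≤ 4)
    (hC : ∀ x y, G.Adj x y → x ∈ C ∨ y ∈ C) (φ : G.Coloring (Fin 3)) (q : Fin 3)
    (hq : ∀ x ∈ C, φ x ≠ q) : PR 2 G := by
  classical
  have key : ∀ T : Finset V, T ⊆ C → T.card ≤ 3 → ∀ w, (∀ x ∈ C, x ∉ T → x = w) →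
      Fo (fun x y => G.Adj x y ∧ (if x ∈ T then (0 : Fin 2) else 1) = if y ∈ T then 0 else 1) := by
    intro T hTC hT w hw
    apply Fo.two (k := fun x => if x ∈ T then (0 : Fin 2) else 1)
    · apply Fo.small (fun x hx => G.loopless.irrefl x hx.1) (fun x y h => ⟨h.1.symm, h.2.2, h.2.1⟩)
        T hT φ q (fun x hx => hq x (hTC hx)) (fun x y h => φ.valid h.1)
      rintro x y ⟨_, h1, h2⟩
      constructor
      · by_contra hx
        simp [hx] at h1
      · by_contra hy
        simp [hy] at h2
    · apply Fo.star w (fun x hx => G.loopless.irrefl x hx.1)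
      rintro x y ⟨hxy, h1, h2⟩
      have hx : x ∉ T := fun hx => by simp [hx] at h1
      have hy : y ∉ T := fun hy => by simp [hy] at h2
      rcases hC x y hxy with h | h
      · exact Or.inl (hw x h hx)
      · exact Or.inr (hw y h hy)
  apply PR.of_edges (by norm_num)
  apply edge_wlog hC
  intro u v huv hu e
  cases e with
  | false =>
    by_cases hv : v ∈ C
    · -- remove `u`
      refine ⟨_, key (C.erase u) (Finset.erase_subset _ _) ?_ u ?_, ?_⟩
      · rw [Finset.card_erase_of_mem hu]
        omega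
      · intro x hx hxu
        by_contra hne
        exact hxu (Finset.mem_erase.2 ⟨hne, hx⟩)
      · simp [hv, huv.ne']
    · -- a set containing `u`
      obtain ⟨T, hTC, hT, huT, w, hw⟩ : ∃ T ⊆ C, T.card ≤ 3 ∧ u ∈ T ∧ ∃ w, ∀ x ∈ C, x ∉ T → x = w := by
        by_cases hc : C.card ≤ 3
        · exact ⟨C, Finset.Subset.refl _, hc, hu, u, fun x hx hx' => absurd hx hx'⟩
        · obtain ⟨w, hwC, hwu⟩ : ∃ w ∈ C, w ≠ u := by
            by_contra hno
            push Not at hno
            have : C ⊆ {u} := fun x hx => Finset.mem_singleton.2 (hno x hx)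
            have := Finset.card_le_card this
            rw [Finset.card_singleton] at this
            omega
          refine ⟨C.erase w, Finset.erase_subset _ _, ?_, Finset.mem_erase.2 ⟨hwu.symm, hu⟩, w, ?_⟩
          · rw [Finset.card_erase_of_mem hwC]
            omega
          · intro x hx hxw
            by_contra hne
            exact hxw (Finset.mem_erase.2 ⟨hne, hx⟩)
      refine ⟨_, key T hTC hT w hw, ?_⟩
      have hvT : v ∉ T := fun h => hv (hTC h)
      simp [huT, hvT]
  | true =>
    by_cases hv : v ∈ C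
    · obtain ⟨T, hTC, hT, huT, hvT, w, hw⟩ : ∃ T ⊆ C, T.card ≤ 3 ∧ u ∈ T ∧ v ∈ T ∧
          ∃ w, ∀ x ∈ C, x ∉ T → x = w := by
        by_cases hc : C.card ≤ 3
        · exact ⟨C, Finset.Subset.refl _, hc, hu, hv, u, fun x hx hx' => absurd hx hx'⟩
        · obtain ⟨w, hwC, hwu⟩ : ∃ w ∈ C, w ≠ u ∧ w ≠ v := by
            by_contra hno
            push Not at hno
            have : C ⊆ {u, v} := fun x hx => by
              by_cases hxu : x = u
              · simp [hxu]
              · simp [hno x hx hxu]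
            have := Finset.card_le_card this
            have h2 : ({u, v} : Finset V).card ≤ 2 := Finset.card_le_two
            omega
          refine ⟨C.erase w, Finset.erase_subset _ _, ?_, Finset.mem_erase.2 ⟨hwu.1.symm, hu⟩,
            Finset.mem_erase.2 ⟨hwu.2.symm, hv⟩, w, ?_⟩
          · rw [Finset.card_erase_of_mem hwC]
            omega
          · intro x hx hxw
            by_contra hne
            exact hxw (Finset.mem_erase.2 ⟨hne, hx⟩)
      refine ⟨_, key T hTC hT w hw, ?_⟩
      simp [huT, hvT]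
    · refine ⟨_, key (C.erase u) (Finset.erase_subset _ _) ?_ u ?_, ?_⟩
      · rw [Finset.card_erase_of_mem hu]
        omega
      · intro x hx hxu
        by_contra hne
        exact hxu (Finset.mem_erase.2 ⟨hne, hx⟩)
      · simp [hv]

/-- A double star between two colours. -/
theorem Fo.bi {V K : Type} {G : V → V → Prop} (φ : V → K) {α β : K} (hne : α ≠ β) (b c : V)
    (hs : ∀ x y, G x y → G y x)
    (h : ∀ x y, G x y → (φ x = α ∧ φ y = β) ∨ (φ x = β ∧ φ y = α))
    (hcov : ∀ x y, G x y → φ x = α → φ y = β → x = b ∨ y = c) : Fo G := by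
  classical
  have hi : ∀ x, ¬ G x x := by
    intro x hx
    rcases h x x hx with ⟨h1, h2⟩ | ⟨h1, h2⟩
    · exact hne (h1.symm.trans h2)
    · exact hne (h2.symm.trans h1)
  have f1 : Fo (fun x y => G x y ∧ ((x = b ∧ φ x = α) ∨ (y = b ∧ φ y = α))) :=
    Fo.star b (fun x hx => hi x hx.1) (fun x y hx => by
      rcases hx.2 with h | h
      · exact Or.inl h.1
      · exact Or.inr h.1)
  have f2 : Fo (fun x y => G x y ∧ ((φ x = α ∧ x ≠ b ∧ y = c) ∨ (φ y = α ∧ y ≠ b ∧ x = c))) :=
    Fo.star c (fun x hx => hi x hx.1) (fun x y hx => by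
      rcases hx.2 with h | h
      · exact Or.inr h.2.2
      · exact Or.inl h.2.2)
  have f3 := Fo.glue (A1 := {x | (x = b ∧ φ x = α) ∨ φ x = β})
    (A2 := {x | (x = c ∧ φ x = β) ∨ (φ x = α ∧ x ≠ b)}) c c f1 f2 (by
      rintro x y ⟨hxy, h1 | h1⟩
      · rcases h x y hxy with h2 | h2
        · exact ⟨Or.inl h1, Or.inr h2.2⟩
        · exact absurd (h1.2.symm.trans h2.1) hne
      · rcases h x y hxy with h2 | h2
        · exact absurd (h1.2.symm.trans h2.2) hne
        · exact ⟨Or.inr h2.1, Or.inl h1⟩) (by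
      rintro x y ⟨hxy, ⟨h1, h2, h3⟩ | ⟨h1, h2, h3⟩⟩
      · rcases h x y hxy with h4 | h4
        · exact ⟨Or.inr ⟨h1, h2⟩, Or.inl ⟨h3, h4.2⟩⟩
        · exact absurd (h1.symm.trans h4.1) hne
      · rcases h x y hxy with h4 | h4
        · exact absurd (h1.symm.trans h4.2) hne
        · exact ⟨Or.inl ⟨h3, h4.1⟩, Or.inr ⟨h1, h2⟩⟩) (by
      rintro x (⟨h1, h2⟩ | h1) (⟨h3, h4⟩ | ⟨h3, h4⟩)
      · exact absurd (h2.symm.trans h4) hne
      · exact absurd h1 h4
      · exact Or.inl h3
      · exact absurd (h3.symm.trans h1) hne) (Or.inl rfl)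
  refine f3.mono ?_
  intro x y hxy
  rcases h x y hxy with ⟨h1, h2⟩ | ⟨h1, h2⟩
  · by_cases hb : x = b
    · exact Or.inl ⟨hxy, Or.inl ⟨hb, h1⟩⟩
    · rcases hcov x y hxy h1 h2 with h3 | h3
      · exact absurd h3 hb
      · exact Or.inr ⟨hxy, Or.inl ⟨h1, hb, h3⟩⟩
  · by_cases hb : y = b
    · exact Or.inl ⟨hxy, Or.inr ⟨hb, h2⟩⟩
    · rcases hcov y x (hs x y hxy) h2 h1 with h3 | h3
      · exact absurd h3 hb
      · exact Or.inr ⟨hxy, Or.inr ⟨h2, hb, h3⟩⟩

theorem fin3_third {a b c d : Fin 3} (h : ∀ i, i = a ∨ i = b ∨ i = c) (h1 : d ≠ a) : d = b ∨ d = c := by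
  rcases h d with h | h | h
  · exact absurd h h1
  · exact Or.inl h
  · exact Or.inr h

/-- First partition. -/
theorem tri_P2 {V : Type} {G : SimpleGraph V} {C : Finset V}
    (hC : ∀ x y, G.Adj x y → x ∈ C ∨ y ∈ C) (φ : G.Coloring (Fin 3)) {p q s : Fin 3}
    (hqs : q ≠ s) (hall : ∀ i, i = p ∨ i = q ∨ i = s) (b c : V)
    (hb : ∀ x ∈ C, φ x = q → x = b) (hc : ∀ x ∈ C, φ x = s → x = c) (k : V → Fin 2)
    (hk0 : ∀ x, k x = 0 ↔ φ x ≠ p) : Fo (fun x y => G.Adj x y ∧ k x = k y) := by
  apply Fo.two
  · apply Fo.bi φ hqs b c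
    · rintro x y ⟨h1, h2, h3⟩
      exact ⟨h1.symm, h3, h2⟩
    · rintro x y ⟨h1, h2, h3⟩
      have := φ.valid h1
      rcases fin3_third hall ((hk0 x).1 h2) with h4 | h4 <;>
        rcases fin3_third hall ((hk0 y).1 h3) with h5 | h5
      · exact absurd (h4.trans h5.symm) this
      · exact Or.inl ⟨h4, h5⟩
      · exact Or.inr ⟨h4, h5⟩
      · exact absurd (h4.trans h5.symm) this
    · rintro x y ⟨h1, h2, h3⟩ h4 h5
      rcases hC x y h1 with h | h
      · exact Or.inl (hb x h h4)
      · exact Or.inr (hc y h h5)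
  · apply Fo.nil
    rintro x y ⟨h1, h2, h3⟩
    have h4 : φ x = p := by
      by_contra h
      have := (hk0 x).2 h
      rw [this] at h2
      exact absurd h2 (by decide)
    have h5 : φ y = p := by
      by_contra h
      have := (hk0 y).2 h
      rw [this] at h3
      exact absurd h3 (by decide)
    exact φ.valid h1 (h4.trans h5.symm)

/-- Second partition. -/
theorem tri_P1 {V : Type} {G : SimpleGraph V} {C : Finset V}
    (hC : ∀ x y, G.Adj x y → x ∈ C ∨ y ∈ C) (φ : G.Coloring (Fin 3)) {p q s : Fin 3}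
    (hpq : p ≠ q) (hps : p ≠ s) (hqs : q ≠ s) (hall : ∀ i, i = p ∨ i = q ∨ i = s) (a a' b : V)
    (ha : ∀ x ∈ C, φ x = p → x = a ∨ x = a')
    (hb : ∀ x ∈ C, φ x = q → x = b) (k : V → Fin 2)
    (hk1 : ∀ x, k x = 1 ↔ (φ x = s ∨ (x ∈ C ∧ φ x = p ∧ x ≠ a))) :
    Fo (fun x y => G.Adj x y ∧ k x = k y) := by
  have hk0 : ∀ x, k x = 0 → φ x = q ∨ (φ x = p ∧ (x ∈ C → x = a)) := by
    intro x hx
    have h1 : ¬ (φ x = s ∨ (x ∈ C ∧ φ x = p ∧ x ≠ a)) := by
      intro h
      rw [(hk1 x).2 h] at hx
      exact absurd hx (by decide)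
    push Not at h1
    rcases hall (φ x) with h | h | h
    · exact Or.inr ⟨h, fun hx => h1.2 hx h⟩
    · exact Or.inl h
    · exact absurd h h1.1
  apply Fo.two
  · apply Fo.bi φ hpq a b
    · rintro x y ⟨h1, h2, h3⟩
      exact ⟨h1.symm, h3, h2⟩
    · rintro x y ⟨h1, h2, h3⟩
      have := φ.valid h1
      rcases hk0 x h2 with h4 | h4 <;> rcases hk0 y h3 with h5 | h5
      · exact absurd (h4.trans h5.symm) this
      · exact Or.inr ⟨h4, h5.1⟩
      · exact Or.inl ⟨h4.1, h5⟩
      · exact absurd (h4.1.trans h5.1.symm) this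
    · rintro x y ⟨h1, h2, h3⟩ h4 h5
      rcases hC x y h1 with h | h
      · rcases hk0 x h2 with h6 | h6
        · exact absurd (h4.symm.trans h6) hpq
        · exact Or.inl (h6.2 h)
      · exact Or.inr (hb y h h5)
  · apply Fo.star a' (fun x hx => G.loopless.irrefl x hx.1)
    rintro x y ⟨h1, h2, h3⟩
    have := φ.valid h1
    rcases (hk1 x).1 h2 with h4 | ⟨h4, h5, h6⟩
    · rcases (hk1 y).1 h3 with h7 | ⟨h7, h8, h9⟩
      · exact absurd (h4.trans h7.symm) this
      · rcases ha y h7 h8 with h | h
        · exact absurd h h9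
        · exact Or.inr h
    · rcases ha x h4 h5 with h | h
      · exact absurd h h6
      · exact Or.inl h

/-- Three colours on the cover. -/
theorem cov4_tri {V : Type} {G : SimpleGraph V} {C : Finset V}
    (hC : ∀ x y, G.Adj x y → x ∈ C ∨ y ∈ C) (φ : G.Coloring (Fin 3)) {p q s : Fin 3}
    (hpq : p ≠ q) (hps : p ≠ s) (hqs : q ≠ s) (hall : ∀ i, i = p ∨ i = q ∨ i = s)
    (a₁ a₂ b c : V) (ha : ∀ x ∈ C, φ x = p → x = a₁ ∨ x = a₂)
    (hb : ∀ x ∈ C, φ x = q → x = b) (hc : ∀ x ∈ C, φ x = s → x = c) : PR 2 G := by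
  classical
  apply PR.of_edges (by norm_num)
  -- the elements of colour `p` of the cover, seen from `a`
  have haa : ∀ a, ∃ a', (a ∈ C → φ a = p → ∀ x ∈ C, φ x = p → x = a ∨ x = a') := by
    intro a
    by_cases h : a ∈ C ∧ φ a = p
    · rcases ha a h.1 h.2 with rfl | rfl
      · exact ⟨a₂, fun _ _ => ha⟩
      · exact ⟨a₁, fun _ _ x hx hxp => (ha x hx hxp).symm⟩
    · exact ⟨a, fun h1 h2 => absurd ⟨h1, h2⟩ h⟩
  -- the partition P2
  obtain ⟨k2, hk2⟩ : ∃ k : V → Fin 2, ∀ x, k x = 0 ↔ φ x ≠ p :=
    ⟨fun x => if φ x = p then 1 else 0, fun x => by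
      by_cases h : φ x = p <;> simp [h]⟩
  have F2 := tri_P2 hC φ hqs hall b c hb hc k2 hk2
  have hk2' : ∀ x, φ x = p → k2 x = 1 := by
    intro x hx
    have h1 : k2 x ≠ 0 := fun h => (hk2 x).1 h hx
    revert h1
    generalize k2 x = t
    revert t
    decide
  -- the partitions P1
  have hk1 : ∀ (s : Fin 3) (a : V), ∃ k : V → Fin 2,
      (∀ x, k x = 1 ↔ (φ x = s ∨ (x ∈ C ∧ φ x = p ∧ x ≠ a))) ∧
      (∀ x, k x = 0 ↔ ¬ (φ x = s ∨ (x ∈ C ∧ φ x = p ∧ x ≠ a))) := by
    intro s a
    refine ⟨fun x => if φ x = s ∨ (x ∈ C ∧ φ x = p ∧ x ≠ a) then 1 else 0, fun x => ?_, fun x => ?_⟩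
    · by_cases h : φ x = s ∨ (x ∈ C ∧ φ x = p ∧ x ≠ a)
      · simp only [if_pos h]
        exact ⟨fun _ => h, fun _ => trivial⟩
      · simp only [if_neg h]
        exact ⟨fun h' => absurd h' (by decide), fun h' => absurd h' h⟩
    · by_cases h : φ x = s ∨ (x ∈ C ∧ φ x = p ∧ x ≠ a)
      · simp only [if_pos h]
        exact ⟨fun h' => absurd h' (by decide), fun h' => absurd h h'⟩
      · simp only [if_neg h]
        exact ⟨fun _ => h, fun _ => trivial⟩
  intro u v huv e
  have hne := φ.valid huv
  cases e with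
  | false =>
    by_cases hup : φ u = p
    · refine ⟨k2, F2, ?_⟩
      have hvp : φ v ≠ p := fun h => hne (hup.trans h.symm)
      rw [hk2' u hup, (hk2 v).2 hvp]
      simp
    · by_cases hvp : φ v = p
      · refine ⟨k2, F2, ?_⟩
        rw [hk2' v hvp, (hk2 u).2 hup]
        simp
      · -- colours `q`, `s`
        by_cases hex : ∃ a ∈ C, φ a = p
        · obtain ⟨a, haC, hap⟩ := hex
          obtain ⟨a', ha'⟩ := haa a
          obtain ⟨k, h1, h0⟩ := hk1 s a
          have F1 := tri_P1 hC φ hpq hps hqs hall a a' b (ha' haC hap) hb k h1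
          refine ⟨k, F1, ?_⟩
          rcases fin3_third hall hup with h | h <;> rcases fin3_third hall hvp with h' | h'
          · exact absurd (h.trans h'.symm) hne
          · rw [(h1 v).2 (Or.inl h'), (h0 u).2 (by
              rintro (h2 | ⟨_, h2, _⟩)
              · exact hqs (h.symm.trans h2)
              · exact hup h2)]
            simp
          · rw [(h1 u).2 (Or.inl h), (h0 v).2 (by
              rintro (h2 | ⟨_, h2, _⟩)
              · exact hqs (h'.symm.trans h2)
              · exact hvp h2)]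
            simp
          · exact absurd (h.trans h'.symm) hne
        · push Not at hex
          obtain ⟨k, h1, h0⟩ := hk1 s u
          have F1 := tri_P1 hC φ hpq hps hqs hall u u b
            (fun x hx hxp => absurd hxp (hex x hx)) hb k h1
          refine ⟨k, F1, ?_⟩
          rcases fin3_third hall hup with h | h <;> rcases fin3_third hall hvp with h' | h'
          · exact absurd (h.trans h'.symm) hne
          · rw [(h1 v).2 (Or.inl h'), (h0 u).2 (by
              rintro (h2 | ⟨_, h2, _⟩)
              · exact hqs (h.symm.trans h2)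
              · exact hup h2)]
            simp
          · rw [(h1 u).2 (Or.inl h), (h0 v).2 (by
              rintro (h2 | ⟨_, h2, _⟩)
              · exact hqs (h'.symm.trans h2)
              · exact hvp h2)]
            simp
          · exact absurd (h.trans h'.symm) hne
  | true =>
    -- colours `p` and `t`
    have main : ∀ u v, G.Adj u v → φ u = p → ∃ k : V → Fin 2,
        Fo (fun x y => G.Adj x y ∧ k x = k y) ∧ k u = k v := by
      intro u v huv hup
      have hvp : φ v ≠ p := fun h => φ.valid huv (hup.trans h.symm)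
      obtain ⟨a, a', haa', hua⟩ : ∃ a a', (∀ x ∈ C, φ x = p → x = a ∨ x = a') ∧ (u ∈ C → u = a) := by
        by_cases huC : u ∈ C
        · obtain ⟨a', ha'⟩ := haa u
          exact ⟨u, a', ha' huC hup, fun _ => rfl⟩
        · exact ⟨a₁, a₂, ha, fun h => absurd h huC⟩
      rcases fin3_third hall hvp with h | h
      · obtain ⟨k, h1, h0⟩ := hk1 s a
        refine ⟨k, tri_P1 hC φ hpq hps hqs hall a a' b haa' hb k h1, ?_⟩
        rw [(h0 u).2 (by
          rintro (h2 | ⟨h3, _, h4⟩)
          · exact hps (hup.symm.trans h2)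
          · exact h4 (hua h3)), (h0 v).2 (by
          rintro (h2 | ⟨_, h2, _⟩)
          · exact hqs (h.symm.trans h2)
          · exact hvp h2)]
      · obtain ⟨k, h1, h0⟩ := hk1 q a
        refine ⟨k, tri_P1 hC φ hps hpq hqs.symm (fun i => by
          rcases hall i with h | h | h <;> simp [h]) a a' c haa' hc k h1, ?_⟩
        rw [(h0 u).2 (by
          rintro (h2 | ⟨h3, _, h4⟩)
          · exact hpq (hup.symm.trans h2)
          · exact h4 (hua h3)), (h0 v).2 (by
          rintro (h2 | ⟨_, h2, _⟩)
          · exact hqs (h2.symm.trans h)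
          · exact hvp h2)]
    by_cases hup : φ u = p
    · obtain ⟨k, hk, hk'⟩ := main u v huv hup
      exact ⟨k, hk, by simp [hk']⟩
    · by_cases hvp : φ v = p
      · obtain ⟨k, hk, hk'⟩ := main v u huv.symm hvp
        exact ⟨k, hk, by simp [hk']⟩
      · refine ⟨k2, F2, ?_⟩
        rw [(hk2 u).2 hup, (hk2 v).2 hvp]
        simp

theorem le_two_cases {V : Type} {T : Finset V} (v₀ : V) (h : T.card ≤ 2) :
    ∃ a b, ∀ x ∈ T, x = a ∨ x = b := by
  classical
  rcases T.eq_empty_or_nonempty with rfl | ⟨u, hu⟩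
  · exact ⟨v₀, v₀, fun x hx => by simp at hx⟩
  · by_cases h2 : ∃ w ∈ T, w ≠ u
    · obtain ⟨w, hw, hwu⟩ := h2
      refine ⟨u, w, fun x hx => ?_⟩
      by_contra hc
      push Not at hc
      have h3 : ({u, w, x} : Finset V) ⊆ T := by
        intro y hy
        simp only [Finset.mem_insert, Finset.mem_singleton] at hy
        rcases hy with rfl | rfl | rfl <;> assumption
      have h4 : ({u, w, x} : Finset V).card = 3 := by
        rw [Finset.card_eq_three]
        exact ⟨u, w, x, hwu.symm, hc.1.symm, hc.2.symm, rfl⟩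
      have := Finset.card_le_card h3
      omega
    · push Not at h2
      exact ⟨u, u, fun x hx => Or.inl (h2 x hx)⟩

theorem le_one_cases {V : Type} {T : Finset V} (v₀ : V) (h : T.card ≤ 1) :
    ∃ a, ∀ x ∈ T, x = a := by
  classical
  rcases T.eq_empty_or_nonempty with rfl | ⟨u, hu⟩
  · exact ⟨v₀, fun x hx => by simp at hx⟩
  · exact ⟨u, fun x hx => Finset.card_le_one.1 h x hx u hu⟩

/-- Two colours. -/
theorem cov4_two {V : Type} {G : SimpleGraph V} {C : Finset V} (h4 : C.card ≤ 4)
    (hC : ∀ x y, G.Adj x y → x ∈ C ∨ y ∈ C) (h3 : G.Colorable 3) : PR 2 G := by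
  classical
  obtain ⟨φ⟩ := h3
  rcases isEmpty_or_nonempty V with hV | ⟨⟨v₀⟩⟩
  · exact PR.col ⟨⟨fun x => hV.elim x, fun {x} => hV.elim x⟩⟩
  have hsum : C.card = (C.filter (fun x => φ x = 0)).card + (C.filter (fun x => φ x = 1)).card +
      (C.filter (fun x => φ x = 2)).card := by
    have := Finset.card_eq_sum_card_fiberwise (s := C) (t := Finset.univ) (f := fun x => φ x)
      (fun x _ => Finset.mem_coe.2 (Finset.mem_univ _))
    rw [Fin.sum_univ_three] at this
    exact this
  have hcase : ∀ p q s : Fin 3, p ≠ q → p ≠ s → q ≠ s → (∀ i, i = p ∨ i = q ∨ i = s) →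
      (C.filter (fun x => φ x = p)).card ≤ 2 → (C.filter (fun x => φ x = q)).card ≤ 1 →
      (C.filter (fun x => φ x = s)).card ≤ 1 → PR 2 G := by
    intro p q s hpq hps hqs hall h1 h2 h3
    obtain ⟨a₁, a₂, ha⟩ := le_two_cases v₀ h1
    obtain ⟨b, hb⟩ := le_one_cases v₀ h2
    obtain ⟨c, hc⟩ := le_one_cases v₀ h3
    exact cov4_tri hC φ hpq hps hqs hall a₁ a₂ b c
      (fun x hx hxp => ha x (Finset.mem_filter.2 ⟨hx, hxp⟩))
      (fun x hx hxp => hb x (Finset.mem_filter.2 ⟨hx, hxp⟩))
      (fun x hx hxp => hc x (Finset.mem_filter.2 ⟨hx, hxp⟩))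
  have hbip : ∀ q : Fin 3, (C.filter (fun x => φ x = q)).card = 0 → PR 2 G := by
    intro q hq
    apply cov4_bip h4 hC φ q
    intro x hx hxq
    rw [Finset.card_eq_zero] at hq
    have : x ∈ (∅ : Finset V) := hq ▸ Finset.mem_filter.2 ⟨hx, hxq⟩
    simp at this
  by_cases c0 : (C.filter (fun x => φ x = 0)).card = 0
  · exact hbip 0 c0
  by_cases c1 : (C.filter (fun x => φ x = 1)).card = 0
  · exact hbip 1 c1
  by_cases c2 : (C.filter (fun x => φ x = 2)).card = 0
  · exact hbip 2 c2
  by_cases d0 : (C.filter (fun x => φ x = 0)).card ≤ 1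
  · by_cases d1 : (C.filter (fun x => φ x = 1)).card ≤ 1
    · exact hcase 2 0 1 (by decide) (by decide) (by decide) (by decide) (by omega) d0 d1
    · exact hcase 1 0 2 (by decide) (by decide) (by decide) (by decide) (by omega) d0 (by omega)
  · exact hcase 0 1 2 (by decide) (by decide) (by decide) (by decide) (by omega) (by omega)
      (by omega)

/-- Row R6: graphs with a vertex cover of at most four vertices. -/
theorem cov4 {V : Type} {G : SimpleGraph V} {r : ℕ} (hr : 2 ≤ r) (hG : G.Colorable (r + 1))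
    (C : Finset V) (h4 : C.card ≤ 4) (hC : ∀ x y, G.Adj x y → x ∈ C ∨ y ∈ C) : PR r G := by
  rcases Nat.lt_or_ge r 3 with h | h
  · have : r = 2 := by omega
    subst this
    exact cov4_two h4 hC hG
  · exact (cov4_three h4 hC).mono h

end MP3240LEAF
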