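import Pool.Agent.Lib.MP_3240be_co.CO.Base
import Pool.Agent.Lib.MP_3240be_co.D62.Main
import Pool.Agent.Lib.MP_3240be_co.D62.Fin

/-!
# MP_3240be_co: the frozen statement from the separation of connected graphs of chromatic
number at least three

The bipartite case is `D62`.
-/

set_option autoImplicit false

namespace MP3240LEAF

open MP3240T

/-- A pendant extension of a connected graph is connected. -/
theorem pendant_connected {n : ℕ} (H : SimpleGraph (Fin n)) (H' : SimpleGraph (Fin (n + 1)))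
    (hc : H.Connected) (hext : ∀ i j : Fin n, H'.Adj i.castSucc j.castSucc ↔ H.Adj i j)
    (v : Fin n) (hv : ∀ i : Fin n, H'.Adj (Fin.last n) i.castSucc ↔ i = v) : H'.Connected := by
  have h1 : ∀ i j : Fin n, H'.Reachable i.castSucc j.castSucc := fun i j =>
    (hc.preconnected i j).map
      (⟨Fin.castSucc, fun {a b} h => (hext a b).2 h⟩ : H →g H')
  have h2 : ∀ x : Fin (n + 1), H'.Reachable v.castSucc x := by
    intro x
    refine Fin.lastCases ?_ (fun i => h1 v i) x
    exact ((hv v).2 rfl).symm.reachable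
  have : Nonempty (Fin (n + 1)) := ⟨Fin.last n⟩
  exact ⟨fun x y => (h2 x).symm.trans (h2 y)⟩

/-- The frozen statement `S07976` from the separation of all connected graphs that are not
bipartite. -/
theorem frozen_of
    (h3 : ∀ (n : ℕ) (H : SimpleGraph (Fin n)), H.Connected → ¬ H.Colorable 2 → MP3240CO.Sep H) :
    ¬ (∃ (n : ℕ) (H : SimpleGraph (Fin n)) (H' : SimpleGraph (Fin (n + 1))),
      H.Connected ∧
      (∀ i j : Fin n, H'.Adj i.castSucc j.castSucc ↔ H.Adj i j) ∧
      (∃ v : Fin n, ∀ i : Fin n, H'.Adj (Fin.last n) i.castSucc ↔ i = v) ∧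
      ∀ (m : ℕ) (F : SimpleGraph (Fin m)),
        (∀ c : Fin m → Fin m → Bool, (∀ x y : Fin m, c x y = c y x) →
          ∃ b : Bool, ∃ f : Fin n → Fin m,
            Function.Injective f ∧
            ∀ i j : Fin n, H.Adj i j → F.Adj (f i) (f j) ∧ c (f i) (f j) = b) ↔
        (∀ c : Fin m → Fin m → Bool, (∀ x y : Fin m, c x y = c y x) →
          ∃ b : Bool, ∃ f : Fin (n + 1) → Fin m,
            Function.Injective f ∧
            ∀ i j : Fin (n + 1), H'.Adj i j → F.Adj (f i) (f j) ∧ c (f i) (f j) = b)) := by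
  rintro ⟨n, H, H', hc, hext, ⟨v, hv⟩, hiff⟩
  have hc' : H'.Connected := pendant_connected H H' hc hext v hv
  by_cases h2 : H.Colorable 2
  · obtain ⟨κ⟩ := h2
    have h4 : ∀ i j, H.Adj i j → decide (κ i = 0) ≠ decide (κ j = 0) := by
      intro i j hij
      have h5 : κ i ≠ κ j := κ.valid hij
      have h6 : ∀ a b : Fin 2, a ≠ b → decide (a = 0) ≠ decide (b = 0) := by decide
      exact h6 _ _ h5
    obtain ⟨m, F, hF, hF'⟩ := MP3240E.all_fin MP3240E.main H H' (fun x => decide (κ x = 0)) hc h4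
      hc' ⟨Fin.castSucc, Fin.castSucc_injective n, fun i j h => (hext i j).2 h⟩ (Nat.lt_succ_self n)
    exact hF' ((hiff m F).1 hF)
  · obtain ⟨m, F, hF, hF'⟩ := h3 n H hc h2 (n + 1) H' hc'
      ⟨Fin.castSucc, Fin.castSucc_injective n, fun i j h => (hext i j).2 h⟩ (by
        rintro ⟨f, hf, -⟩
        have h7 := Fintype.card_le_of_injective f hf
        simp at h7)
    exact hF' ((MP3240E.arr_T F H').2 ((hiff m F).1 ((MP3240E.arr_T F H).1 hF)))

end MP3240LEAF
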